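import Pool.Agent.H830Z.ER.Num

/-!
From local bounds to global bounds by averaging over tuples.
-/

set_option autoImplicit false

namespace Pool.Agent.H830Z.ER

open Finset

variable {V : Type} [Fintype V] [DecidableEq V]

theorem marginal {m d : ℕ} (μ : Fin m → V → ℝ) (hμ : ∀ l, ∑ v, μ l v = 1) (ι : Fin d → Fin m)
    (hι : Function.Injective ι) (φ : (Fin d → V) → ℝ) :
    ∑ x : Fin m → V, (∏ l, μ l (x l)) * φ (x ∘ ι) = ∑ y : Fin d → V, (∏ a, μ (ι a) (y a)) * φ y := by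
  have e1 : ∀ x : Fin m → V, (∏ l, μ l (x l)) * φ (x ∘ ι) = ∑ y : Fin d → V,
      (∏ l, μ l (x l) * if ∀ a, ι a = l → x l = y a then 1 else 0) * φ y := by
    intro x
    rw [sum_eq_single (x ∘ ι)]
    · congr 1
      refine prod_congr rfl fun l _ => ?_
      rw [if_pos, mul_one]
      rintro a rfl
      rfl
    · intro y _ hne
      obtain ⟨a, ha⟩ := Function.ne_iff.1 hne
      rw [prod_eq_zero (mem_univ (ι a)), zero_mul]
      rw [if_neg, mul_zero]
      intro h
      exact ha (h a rfl).symm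
    · simp
  simp only [e1]
  rw [sum_comm]
  refine sum_congr rfl fun y _ => ?_
  rw [← sum_mul]
  congr 1
  rw [← Fintype.prod_sum (fun l v => μ l v * if ∀ a, ι a = l → v = y a then 1 else 0)]
  symm
  apply prod_of_injOn ι (hι.injOn) (fun _ _ => mem_coe.2 (mem_univ _))
  · intro l _ hl
    refine Eq.trans ?_ (hμ l)
    refine sum_congr rfl fun v _ => ?_
    rw [if_pos, mul_one]
    rintro a rfl
    exact absurd ⟨a, mem_coe.2 (mem_univ _), rfl⟩ hl
  · intro a _
    rw [sum_eq_single (y a)]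
    · rw [if_pos, mul_one]
      intro b hb
      rw [hι hb]
    · intro v _ hv
      rw [if_neg, mul_zero]
      exact fun h => hv (h a rfl)
    · simp

theorem marginal2 {m : ℕ} (μ : Fin m → V → ℝ) (hμ : ∀ l, ∑ v, μ l v = 1) {i j : Fin m}
    (hij : i ≠ j) (φ : V → V → ℝ) :
    ∑ x : Fin m → V, (∏ l, μ l (x l)) * φ (x i) (x j) = ∑ a, ∑ b, μ i a * μ j b * φ a b := by
  have h := marginal μ hμ ![i, j] (by
    intro a b hab
    fin_cases a <;> fin_cases b <;> simp_all) (fun y => φ (y 0) (y 1))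
  refine h.trans ?_
  rw [← Fintype.sum_prod_type']
  refine Fintype.sum_equiv (piFinTwoEquiv fun _ => V) _ _ fun y => ?_
  simp [Fin.prod_univ_two]

variable (G : SimpleGraph V) (L : V → V → Finset (Fin 393217))

open Classical in
/-- the weight of a pair -/
noncomputable def ww (x y : V) : ℝ := if G.Adj x y then Real.log (L x y).card else 0

open Classical in
/-- bad pairs -/
noncomputable def b2 (x y : V) : ℝ := if ¬ G.Adj x y ∨ L x y = ∅ then 1 else 0

open Classical in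
/-- bad quadruples -/
noncomputable def b4 {V κ : Type} (L : V → V → Finset κ) (y : Fin 4 → V) : ℝ :=
  if PatL (L (y 0) (y 1)) (L (y 2) (y 3)) (L (y 0) (y 2)) (L (y 0) (y 3)) (L (y 1) (y 2))
    (L (y 1) (y 3)) then 1 else 0

omit [Fintype V] [DecidableEq V] in
theorem ww_nonneg (x y : V) : 0 ≤ ww G L x y := by
  unfold ww
  split_ifs
  · exact Real.log_natCast_nonneg _
  · exact le_rfl

omit [Fintype V] [DecidableEq V] in
theorem ww_le (x y : V) : ww G L x y ≤ 14 := by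
  unfold ww
  split_ifs
  · rcases Nat.eq_zero_or_pos (L x y).card with h | h
    · rw [h]; norm_num
    · have h1 : ((L x y).card : ℝ) ≤ 393217 := by
        have := card_le_univ (L x y)
        rw [Fintype.card_fin] at this
        exact_mod_cast this
      have l1 := log_le_of_pow (x := ((L x y).card : ℝ)) (by exact_mod_cast h) 1 19
        (by rw [pow_one]; linarith)
      have := Real.log_two_lt_d9
      push_cast at l1
      linarith
  · norm_num

omit [Fintype V] [DecidableEq V] in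
theorem b2_nonneg (x y : V) : 0 ≤ b2 G L x y := by unfold b2; split_ifs <;> norm_num

omit [Fintype V] [DecidableEq V] in
theorem b4_nonneg (y : Fin 4 → V) : 0 ≤ b4 L y := by unfold b4; split_ifs <;> norm_num

open Classical in
/-- injective quadruples of indices -/
noncomputable def inj4 (m : ℕ) : Finset (Fin 4 → Fin m) := univ.filter Function.Injective

omit [Fintype V] [DecidableEq V] in
theorem local_pen (hL : ∀ x y, L x y = L y x) {m : ℕ} {M : ℝ} (hM0 : 0 ≤ M)
    (hM : ∀ L' : Fin m → Fin m → Finset (Fin 393217), Tm L' → SL L' univ ≤ M) (x : Fin m → V) :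
    ∑ p ∈ (univ : Finset (Fin m)).offDiag, ww G L (x p.1) (x p.2) ≤ M + 14 * (m : ℝ) ^ 2 *
      (∑ p ∈ (univ : Finset (Fin m)).offDiag, b2 G L (x p.1) (x p.2) +
        ∑ ι ∈ inj4 m, b4 L (x ∘ ι)) := by
  classical
  have n2 : 0 ≤ ∑ p ∈ (univ : Finset (Fin m)).offDiag, b2 G L (x p.1) (x p.2) :=
    sum_nonneg fun _ _ => b2_nonneg G L _ _
  have n4 : 0 ≤ ∑ ι ∈ inj4 m, b4 L (x ∘ ι) := sum_nonneg fun _ _ => b4_nonneg L _
  have hm : (0 : ℝ) ≤ 14 * (m : ℝ) ^ 2 := by positivity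
  have triv : ∑ p ∈ (univ : Finset (Fin m)).offDiag, ww G L (x p.1) (x p.2) ≤ 14 * (m : ℝ) ^ 2 := by
    have := sum_le_card_nsmul (univ : Finset (Fin m)).offDiag (fun p => ww G L (x p.1) (x p.2)) 14
      fun p _ => ww_le G L _ _
    rw [nsmul_eq_mul, offDiag_card_real, card_univ, Fintype.card_fin] at this
    have : (0 : ℝ) ≤ m := by positivity
    nlinarith
  by_cases h2 : ∃ i j, i ≠ j ∧ (¬ G.Adj (x i) (x j) ∨ L (x i) (x j) = ∅)
  · obtain ⟨i, j, hij, h⟩ := h2
    have : b2 G L (x i) (x j) ≤ ∑ p ∈ (univ : Finset (Fin m)).offDiag, b2 G L (x p.1) (x p.2) :=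
      single_le_sum (f := fun p : Fin m × Fin m => b2 G L (x p.1) (x p.2))
        (fun _ _ => b2_nonneg G L _ _) (a := (i, j)) (mem_offDiag.2 ⟨mem_univ _, mem_univ _, hij⟩)
    rw [b2, if_pos h] at this
    nlinarith
  by_cases h4 : ∃ ι ∈ inj4 m, b4 L (x ∘ ι) = 1
  · obtain ⟨ι, hι, h⟩ := h4
    have : b4 L (x ∘ ι) ≤ ∑ ι ∈ inj4 m, b4 L (x ∘ ι) :=
      single_le_sum (f := fun ι => b4 L (x ∘ ι)) (fun _ _ => b4_nonneg L _) hι
    rw [h] at this
    nlinarith
  push Not at h2 h4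
  have hT : Tm (fun i j => L (x i) (x j)) := by
    refine ⟨fun i j => hL _ _, fun i j hij => (h2 i j hij).2, ?_⟩
    intro a b c d h1 h3 h5 h6 h7 h8 hP
    apply h4 ![a, b, c, d]
    · refine mem_filter.2 ⟨mem_univ _, ?_⟩
      intro i j hij
      fin_cases i <;> fin_cases j <;> simp_all
    · exact if_pos hP
  have e : ∑ p ∈ (univ : Finset (Fin m)).offDiag, ww G L (x p.1) (x p.2) =
      SL (fun i j => L (x i) (x j)) univ :=
    sum_congr rfl fun p hp => if_pos (h2 _ _ (mem_offDiag.1 hp).2.2).1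
  have := hM _ hT
  rw [e]
  nlinarith [mul_nonneg hm (add_nonneg n2 n4)]

theorem avg_pen (hL : ∀ x y, L x y = L y x) {m : ℕ} {M : ℝ} (hM0 : 0 ≤ M)
    (hM : ∀ L' : Fin m → Fin m → Finset (Fin 393217), Tm L' → SL L' univ ≤ M)
    (μ : Fin m → V → ℝ) (hμ : ∀ l, ∑ v, μ l v = 1) (hμ0 : ∀ l v, 0 ≤ μ l v) {β : ℝ}
    (hβ : ∀ l v, μ l v ≤ β) :
    ∑ p ∈ (univ : Finset (Fin m)).offDiag, ∑ a, ∑ b, μ p.1 a * μ p.2 b * ww G L a b ≤
      M + 14 * (m : ℝ) ^ 2 *
      (∑ p ∈ (univ : Finset (Fin m)).offDiag, ∑ a, ∑ b, μ p.1 a * μ p.2 b * b2 G L a b +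
        (m : ℝ) ^ 4 * (β ^ 4 * ∑ y, b4 L y)) := by
  classical
  have hP : ∀ x : Fin m → V, 0 ≤ ∏ l, μ l (x l) := fun x => prod_nonneg fun l _ => hμ0 _ _
  have h1 := sum_le_sum fun (x : Fin m → V) (_ : x ∈ univ) =>
    mul_le_mul_of_nonneg_left (local_pen G L hL hM0 hM x) (hP x)
  have h2 : ∑ x : Fin m → V, ∏ l, μ l (x l) = 1 := by
    rw [← Fintype.prod_sum]
    simp [hμ]
  have h3 : ∀ φ : V → V → ℝ, ∑ x : Fin m → V, (∏ l, μ l (x l)) *
      ∑ p ∈ (univ : Finset (Fin m)).offDiag, φ (x p.1) (x p.2) =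
      ∑ p ∈ (univ : Finset (Fin m)).offDiag, ∑ a, ∑ b, μ p.1 a * μ p.2 b * φ a b := by
    intro φ
    simp only [mul_sum]
    rw [sum_comm]
    exact sum_congr rfl fun p hp => marginal2 μ hμ (mem_offDiag.1 hp).2.2 φ
  have hb : 0 ≤ β ^ 4 * ∑ y, b4 L y :=
    mul_nonneg (by positivity) (sum_nonneg fun _ _ => b4_nonneg L _)
  have h4 : ∑ x : Fin m → V, (∏ l, μ l (x l)) * ∑ ι ∈ inj4 m, b4 L (x ∘ ι) ≤
      (m : ℝ) ^ 4 * (β ^ 4 * ∑ y, b4 L y) := by
    simp only [mul_sum (s := inj4 m)]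
    rw [sum_comm]
    have e1 := sum_le_card_nsmul (inj4 m) (fun ι => ∑ x : Fin m → V, (∏ l, μ l (x l)) * b4 L (x ∘ ι))
      (β ^ 4 * ∑ y, b4 L y) (by
        intro ι hι
        rw [marginal μ hμ ι (mem_filter.1 hι).2, mul_sum]
        refine sum_le_sum fun y _ => mul_le_mul_of_nonneg_right ?_ (b4_nonneg L _)
        have := prod_le_prod (s := univ) (fun a _ => hμ0 (ι a) (y a)) (fun a _ => hβ (ι a) (y a))
        simpa using this)
    have e2 : ((inj4 m).card : ℝ) ≤ (m : ℝ) ^ 4 := by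
      have := card_le_univ (inj4 m)
      simp only [Fintype.card_pi, Fintype.card_fin, prod_const, card_univ] at this
      exact_mod_cast this
    rw [nsmul_eq_mul] at e1
    exact e1.trans (mul_le_mul_of_nonneg_right e2 hb)
  rw [h3] at h1
  simp only [mul_add, sum_add_distrib, mul_left_comm _ (14 * (m : ℝ) ^ 2), ← mul_sum (a := 14 * (m : ℝ) ^ 2)] at h1
  rw [← sum_mul, h2, one_mul, h3] at h1
  have hm : (0 : ℝ) ≤ 14 * (m : ℝ) ^ 2 := by positivity
  nlinarith [mul_le_mul_of_nonneg_left h4 hm]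

end Pool.Agent.H830Z.ER
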