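import Pool.Agent.H830Z.ER.Defs

/-!
Colourings as symmetric functions; counting with weights.
-/

set_option autoImplicit false

namespace Pool.Agent.H830Z.ER

open SimpleGraph Finset

/-- five pairwise different colours -/
def D5 {α : Type} (c a b d e : α) : Prop :=
  c ≠ a ∧ c ≠ b ∧ c ≠ d ∧ c ≠ e ∧ a ≠ b ∧ a ≠ d ∧ a ≠ e ∧ b ≠ d ∧ b ≠ e ∧ d ≠ e

/-- a copy of `K_4` with the pattern -/
def Bad {V α : Type} (G : SimpleGraph V) (F : V → V → α) : Prop :=
  ∃ x y z w, (G.Adj x y ∧ G.Adj z w ∧ G.Adj x z ∧ G.Adj x w ∧ G.Adj y z ∧ G.Adj y w) ∧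
    F x y = F z w ∧ D5 (F x y) (F x z) (F x w) (F y z) (F y w)

open Classical in
/-- all colourings -/
noncomputable def All {V : Type} [Fintype V] (r : ℕ) [NeZero r] (G : SimpleGraph V) :
    Finset (V → V → Fin r) :=
  univ.filter fun F => (∀ x y, F x y = F y x) ∧ ∀ x y, ¬ G.Adj x y → F x y = 0

open Classical in
/-- pattern-free colourings -/
noncomputable def Col {V : Type} [Fintype V] (r : ℕ) [NeZero r] (G : SimpleGraph V) :
    Finset (V → V → Fin r) :=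
  (All r G).filter fun F => ¬ Bad G F

variable {V : Type} [Fintype V] {r : ℕ} [NeZero r] {G : SimpleGraph V}

theorem mem_All {F : V → V → Fin r} :
    F ∈ All r G ↔ (∀ x y, F x y = F y x) ∧ ∀ x y, ¬ G.Adj x y → F x y = 0 := by
  simp [All]

theorem mem_Col {F : V → V → Fin r} : F ∈ Col r G ↔
    ((∀ x y, F x y = F y x) ∧ ∀ x y, ¬ G.Adj x y → F x y = 0) ∧ ¬ Bad G F := by
  simp [Col, mem_All]

theorem pat_iff {α : Type} (φ : Sym2 (Fin 4) → α) :
    (∀ e e' : (⊤ : SimpleGraph (Fin 4)).edgeSet, φ e.1 = φ e'.1 ↔ P4 e e') ↔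
      φ s(0, 1) = φ s(2, 3) ∧ D5 (φ s(0, 1)) (φ s(0, 2)) (φ s(0, 3)) (φ s(1, 2)) (φ s(1, 3)) := by
  constructor
  · intro h
    have key : ∀ (a b c d : Fin 4) (h1 : a ≠ b) (h2 : c ≠ d), φ s(a, b) = φ s(c, d) ↔
        (s(a, b) = s(c, d) ∨ ((s(a, b) = s(0, 1) ∨ s(a, b) = s(2, 3)) ∧
          (s(c, d) = s(0, 1) ∨ s(c, d) = s(2, 3)))) := by
      intro a b c d h1 h2
      rw [h ⟨s(a, b), h1⟩ ⟨s(c, d), h2⟩]
      exact or_congr Subtype.ext_iff Iff.rfl
    unfold D5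
    refine ⟨?_, ?_, ?_, ?_, ?_, ?_, ?_, ?_, ?_, ?_, ?_⟩ <;>
      (try simp only [ne_eq]) <;> rw [key _ _ _ _ (by decide) (by decide)] <;> decide
  · rintro ⟨h0, h1, h2, h3, h4, h5, h6, h7, h8, h9, h10⟩ ⟨e, he⟩ ⟨e', he'⟩
    have hc : ∀ e : Sym2 (Fin 4), e ∈ (⊤ : SimpleGraph (Fin 4)).edgeSet → e = s(0, 1) ∨
        e = s(2, 3) ∨ e = s(0, 2) ∨ e = s(0, 3) ∨ e = s(1, 2) ∨ e = s(1, 3) := by
      intro e
      induction e using Sym2.ind with
      | _ a b =>
        rw [mem_edgeSet, top_adj]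
        revert a b
        decide
    have hP : P4 ⟨e, he⟩ ⟨e', he'⟩ ↔
        (e = e' ∨ ((e = s(0, 1) ∨ e = s(2, 3)) ∧ (e' = s(0, 1) ∨ e' = s(2, 3)))) :=
      or_congr Subtype.ext_iff Iff.rfl
    rw [hP]
    have h1' := h1.symm
    have h2' := h2.symm
    have h3' := h3.symm
    have h4' := h4.symm
    have h5' := h5.symm
    have h6' := h6.symm
    have h7' := h7.symm
    have h8' := h8.symm
    have h9' := h9.symm
    have h10' := h10.symm
    rcases hc e he with rfl | rfl | rfl | rfl | rfl | rfl <;>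
      rcases hc e' he' with rfl | rfl | rfl | rfl | rfl | rfl <;>
      simp only [← h0, h1, h2, h3, h4, h5, h6, h7, h8, h9, h10, h1', h2', h3', h4', h5', h6', h7',
        h8', h9', h10', true_iff, false_iff] <;> decide

open Classical in
/-- the symmetric function of a colouring -/
noncomputable def toF (G : SimpleGraph V) (χ : G.edgeSet → Fin r) (x y : V) : Fin r :=
  if h : G.Adj x y then χ ⟨s(x, y), h⟩ else 0

omit [Fintype V] in
theorem toF_adj (χ : G.edgeSet → Fin r) {x y : V} (h : G.Adj x y) :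
    toF G χ x y = χ ⟨s(x, y), h⟩ := dif_pos h

omit [Fintype V] in
theorem hasPattern_iff (χ : G.edgeSet → Fin r) : HasPattern P4 G χ ↔ Bad G (toF G χ) := by
  classical
  have key : ∀ f : (⊤ : SimpleGraph (Fin 4)) ↪g G,
      (∀ e e', χ (f.mapEdgeSet e) = χ (f.mapEdgeSet e') ↔ P4 e e') ↔
      toF G χ (f 0) (f 1) = toF G χ (f 2) (f 3) ∧ D5 (toF G χ (f 0) (f 1)) (toF G χ (f 0) (f 2))
        (toF G χ (f 0) (f 3)) (toF G χ (f 1) (f 2)) (toF G χ (f 1) (f 3)) := by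
    intro f
    let φ : Sym2 (Fin 4) → Fin r := fun e =>
      if h : Sym2.map f e ∈ G.edgeSet then χ ⟨Sym2.map f e, h⟩ else 0
    have e1 : ∀ e, χ (f.mapEdgeSet e) = φ e.1 := fun e => by
      have h : Sym2.map f e.1 ∈ G.edgeSet := (f.mapEdgeSet e).2
      simp only [φ, dif_pos h]
      rfl
    have e2 : ∀ a b, φ s(a, b) = toF G χ (f a) (f b) := fun a b => rfl
    simp only [e1, ← e2]
    exact pat_iff φ
  constructor
  · rintro ⟨f, hf⟩
    rw [key] at hf
    refine ⟨f 0, f 1, f 2, f 3, ⟨?_, ?_, ?_, ?_, ?_, ?_⟩, hf⟩ <;>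
      exact f.map_adj_iff.2 (by decide)
  · rintro ⟨x, y, z, w, ⟨a1, a2, a3, a4, a5, a6⟩, h⟩
    have hadj : ∀ i j : Fin 4, i ≠ j → G.Adj (![x, y, z, w] i) (![x, y, z, w] j) := by
      intro i j hij
      fin_cases i <;> fin_cases j <;>
        first | exact absurd rfl hij | assumption | (apply Adj.symm; assumption)
    let f : (⊤ : SimpleGraph (Fin 4)) ↪g G :=
      ⟨⟨![x, y, z, w], fun i j hij => by
        by_contra hne
        exact (hadj i j hne).ne hij⟩, fun {i j} => ⟨fun h e => by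
          subst e
          exact G.irrefl h, hadj i j⟩⟩
    exact ⟨f, (key f).2 h⟩

theorem numFree_eq (G : SimpleGraph V) : numFree r P4 G = (Col r G).card := by
  classical
  unfold numFree
  rw [← Nat.card_eq_finsetCard]
  refine Nat.card_congr (Equiv.ofBijective (fun χ => ⟨toF G χ.1, mem_Col.2 ⟨⟨?_, ?_⟩, ?_⟩⟩) ⟨?_, ?_⟩)
  · intro x y
    by_cases h : G.Adj x y
    · rw [toF_adj _ h, toF_adj _ h.symm]
      exact congrArg χ.1 (Subtype.ext Sym2.eq_swap)
    · unfold toF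
      rw [dif_neg h, dif_neg fun h' => h h'.symm]
  · intro x y h
    exact dif_neg h
  · rw [← hasPattern_iff]
    exact χ.2
  · intro χ χ' h
    apply Subtype.ext
    funext ⟨e, he⟩
    induction e using Sym2.ind with
    | _ a b =>
      have h1 := congrFun (congrFun (congrArg Subtype.val h) a) b
      simp only at h1
      rwa [toF_adj _ he, toF_adj _ he] at h1
  · rintro ⟨F, hF⟩
    obtain ⟨⟨h1, h2⟩, h3⟩ := mem_Col.1 hF
    have e : toF G (fun e => Sym2.lift ⟨F, h1⟩ e.1) = F := by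
      funext x y
      by_cases h : G.Adj x y
      · rw [toF_adj _ h]; rfl
      · rw [h2 x y h]; exact dif_neg h
    refine ⟨⟨fun e => Sym2.lift ⟨F, h1⟩ e.1, ?_⟩, Subtype.ext e⟩
    rw [hasPattern_iff, e]
    exact h3

open Classical in
/-- the edges, as increasing pairs -/
noncomputable def Dg {n : ℕ} (G : SimpleGraph (Fin n)) : Finset (Fin n × Fin n) :=
  univ.filter fun p => p.1 < p.2 ∧ G.Adj p.1 p.2

theorem mem_Dg {n : ℕ} {G : SimpleGraph (Fin n)} {p : Fin n × Fin n} :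
    p ∈ Dg G ↔ p.1 < p.2 ∧ G.Adj p.1 p.2 := by simp [Dg]

open Classical in
theorem sum_Dg {n : ℕ} (G : SimpleGraph (Fin n)) (w : Fin n → Fin n → ℝ)
    (hw : ∀ x y, w x y = w y x) :
    2 * ∑ p ∈ Dg G, w p.1 p.2 = ∑ x, ∑ y, if G.Adj x y then w x y else 0 := by
  have e1 : ∑ p ∈ Dg G, w p.1 p.2 = ∑ x, ∑ y, if x < y ∧ G.Adj x y then w x y else 0 := by
    unfold Dg
    rw [sum_filter, Fintype.sum_prod_type]
  have e2 : ∑ p ∈ Dg G, w p.1 p.2 = ∑ x, ∑ y, if y < x ∧ G.Adj x y then w x y else 0 := by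
    rw [e1, sum_comm]
    refine sum_congr rfl fun x _ => sum_congr rfl fun y _ => ?_
    rw [hw y x, G.adj_comm y x]
  rw [two_mul]
  nth_rewrite 1 [e1]
  rw [e2, ← sum_add_distrib]
  refine sum_congr rfl fun x _ => ?_
  rw [← sum_add_distrib]
  refine sum_congr rfl fun y _ => ?_
  by_cases h : G.Adj x y
  · rcases lt_or_gt_of_ne h.ne with h1 | h1
    · simp [h, h1, h1.le]
    · simp [h, h1, h1.le]
  · simp [h]

theorem count_upper {n : ℕ} (G : SimpleGraph (Fin n)) (A : Finset (Fin n → Fin n → Fin r))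
    (hA : A ⊆ All r G) (wt : Fin n × Fin n → Fin r → ℝ) (hwt : ∀ p c, 0 ≤ wt p c) :
    ∑ F ∈ A, ∏ p ∈ Dg G, wt p (F p.1 p.2) ≤ ∏ p ∈ Dg G, ∑ c, wt p c := by
  classical
  rw [← prod_coe_sort (Dg G) (fun p => ∑ c, wt p c), Fintype.prod_sum]
  let ρ : (Fin n → Fin n → Fin r) → (Dg G → Fin r) := fun F p => F p.1.1 p.1.2
  have hinj : Set.InjOn ρ A := by
    intro F hF F' hF' h
    obtain ⟨h1, h2⟩ := mem_All.1 (hA hF)
    obtain ⟨h1', h2'⟩ := mem_All.1 (hA hF')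
    funext x y
    by_cases hxy : G.Adj x y
    · rcases lt_or_gt_of_ne hxy.ne with h3 | h3
      · exact congrFun h ⟨(x, y), mem_Dg.2 ⟨h3, hxy⟩⟩
      · rw [h1, h1']
        exact congrFun h ⟨(y, x), mem_Dg.2 ⟨h3, hxy.symm⟩⟩
    · rw [h2 x y hxy, h2' x y hxy]
  have e : ∑ F ∈ A, ∏ p ∈ Dg G, wt p (F p.1 p.2) =
      ∑ y ∈ A.image ρ, ∏ p : Dg G, wt p.1 (y p) := by
    rw [sum_image hinj]
    exact sum_congr rfl fun F _ => (prod_coe_sort (Dg G) (fun p => wt p (F p.1 p.2))).symm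
  rw [e]
  exact sum_le_sum_of_subset_of_nonneg (subset_univ _)
    fun y _ _ => prod_nonneg fun p _ => hwt _ _

theorem count_lower {n : ℕ} (G : SimpleGraph (Fin n)) (L : Fin n → Fin n → Finset (Fin r))
    (hL : ∀ x y, L x y = L y x)
    (hfree : ∀ F : Fin n → Fin n → Fin r, (∀ x y, G.Adj x y → F x y ∈ L x y) → ¬ Bad G F) :
    ∏ p ∈ Dg G, (L p.1 p.2).card ≤ (Col r G).card := by
  classical
  rw [← prod_coe_sort (Dg G) (fun p => (L p.1 p.2).card),
    ← Fintype.card_piFinset (fun p : Dg G => L p.1.1 p.1.2)]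
  let ρ : (Dg G → Fin r) → (Fin n → Fin n → Fin r) := fun g x y =>
    if h : (x, y) ∈ Dg G then g ⟨_, h⟩ else if h' : (y, x) ∈ Dg G then g ⟨_, h'⟩ else 0
  apply card_le_card_of_injOn ρ
  · intro g hg
    have hg' := Fintype.mem_piFinset.1 (mem_coe.1 hg)
    refine mem_coe.2 (mem_Col.2 ⟨⟨?_, ?_⟩, hfree _ ?_⟩)
    · intro x y
      simp only [ρ]
      by_cases h : (x, y) ∈ Dg G <;> by_cases h' : (y, x) ∈ Dg G
      · exact absurd (mem_Dg.1 h).1 (not_lt.2 (mem_Dg.1 h').1.le)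
      · simp [h, h']
      · simp [h, h']
      · simp [h, h']
    · intro x y hxy
      simp only [ρ]
      rw [dif_neg (fun h => hxy (mem_Dg.1 h).2), dif_neg (fun h => hxy (mem_Dg.1 h).2.symm)]
    · intro x y hxy
      simp only [ρ]
      by_cases h : (x, y) ∈ Dg G
      · rw [dif_pos h]
        exact hg' ⟨_, h⟩
      · have h' : (y, x) ∈ Dg G := by
          rcases lt_or_gt_of_ne hxy.ne with h3 | h3
          · exact absurd (mem_Dg.2 ⟨h3, hxy⟩) h
          · exact mem_Dg.2 ⟨h3, hxy.symm⟩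
        rw [dif_neg h, dif_pos h', hL]
        exact hg' ⟨_, h'⟩
  · intro g _ g' _ h
    funext ⟨⟨x, y⟩, hp⟩
    have := congrFun (congrFun h x) y
    simpa [ρ, hp] using this

end Pool.Agent.H830Z.ER
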