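import Mathlib

/-!
A combinatorial lemma: if any two disjoint edges of `E` span a cherry of `S`, then
`|E| ≤ t - 1 + |S|`.
-/

set_option autoImplicit false

namespace Pool.Agent.H830Z.ER

open Finset

variable {ι : Type} [DecidableEq ι]

open Classical in
/-- degree inside `W` -/
noncomputable def dg (E : ι → ι → Prop) (W : Finset ι) (v : ι) : ℕ := (W.filter (E v)).card

/-- number of ordered pairs inside `W` -/
noncomputable def cnt (E : ι → ι → Prop) (W : Finset ι) : ℕ := ∑ v ∈ W, dg E W v

/-- the hypotheses on the two graphs -/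
structure Cherry (E S : ι → ι → Prop) : Prop where
  Es : ∀ x y, E x y → E y x
  Ss : ∀ x y, S x y → S y x
  Ei : ∀ x, ¬ E x x
  Si : ∀ x, ¬ S x x
  dis : ∀ x y, E x y → ¬ S x y
  ch : ∀ x y z w, E x y → E z w → x ≠ z → x ≠ w → y ≠ z → y ≠ w →
    (S x z ∧ S x w) ∨ (S y z ∧ S y w) ∨ (S x z ∧ S y z) ∨ (S x w ∧ S y w)

theorem cnt_erase {E : ι → ι → Prop} (hs : ∀ x y, E x y → E y x) (hi : ∀ x, ¬ E x x)
    {W : Finset ι} {v : ι} (hv : v ∈ W) : cnt E W = cnt E (W.erase v) + 2 * dg E W v := by
  classical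
  unfold cnt
  rw [← add_sum_erase W _ hv]
  have e1 : ∀ u ∈ W.erase v, dg E W u = dg E (W.erase v) u + if E v u then 1 else 0 := by
    intro u _
    unfold dg
    conv_lhs => rw [← insert_erase hv, filter_insert]
    by_cases h : E u v
    · rw [if_pos h, if_pos (hs _ _ h), card_insert_of_notMem (by simp)]
    · rw [if_neg h, if_neg (fun h' => h (hs _ _ h')), add_zero]
  rw [sum_congr rfl e1, sum_add_distrib, ← card_filter]
  have e2 : ((W.erase v).filter (E v)).card = dg E W v := by
    unfold dg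
    congr 1
    ext u
    simp only [mem_filter, mem_erase]
    constructor
    · rintro ⟨⟨_, h1⟩, h2⟩; exact ⟨h1, h2⟩
    · rintro ⟨h1, h2⟩
      exact ⟨⟨by rintro rfl; exact hi _ h2, h1⟩, h2⟩
  have e3 : ((W.erase v).filter fun u => E v u).card = dg E W v := e2
  omega

variable {E S : ι → ι → Prop}

theorem Cherry.f1 (h : Cherry E S) {p y w y2 : ι} (h1 : E p y) (h2 : E y w) (h3 : E p y2)
    (hpw : p ≠ w) (hy : y2 ≠ y) (hw : y2 ≠ w) : S w y2 := by
  have hpy : p ≠ y := by rintro rfl; exact h.Ei _ h1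
  rcases h.ch p y2 y w h3 h2 hpy hpw hy hw with h4 | h4 | h4 | h4
  · exact absurd h4.1 (h.dis _ _ h1)
  · exact h.Ss _ _ h4.2
  · exact absurd h4.1 (h.dis _ _ h1)
  · exact h.Ss _ _ h4.2

theorem Cherry.vertex (h : Cherry E S) {W : Finset ι} (hW : 4 ≤ W.card) :
    ∃ v ∈ W, dg E W v ≤ 1 + dg S W v := by
  classical
  by_contra hc
  push Not at hc
  have hne : W.Nonempty := card_pos.1 (by omega)
  have two : ∀ v ∈ W, ∀ a, ∃ b ∈ W, E v b ∧ b ≠ a := by
    intro v hv a
    have h1 : 1 < (W.filter (E v)).card := by have := hc v hv; unfold dg at this; omega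
    obtain ⟨b, hb, hba⟩ := exists_mem_ne h1 a
    exact ⟨b, (mem_filter.1 hb).1, (mem_filter.1 hb).2, hba⟩
  obtain ⟨p, hp, hmax⟩ := exists_max_image W (dg E W) hne
  by_cases hA : ∃ y ∈ W, ∃ w ∈ W, E p y ∧ E y w ∧ w ≠ p ∧ ¬ E p w
  · obtain ⟨y, hy, w, hw, h1, h2, h3, h4⟩ := hA
    have e1 : (W.filter (E p)).erase y ⊆ W.filter (S w) := by
      intro y2 hy2
      obtain ⟨h5, h6⟩ := mem_erase.1 hy2
      obtain ⟨h7, h8⟩ := mem_filter.1 h6
      exact mem_filter.2 ⟨h7, h.f1 h1 h2 h8 h3.symm h5 (by rintro rfl; exact h4 h8)⟩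
    have e2 := card_le_card e1
    rw [card_erase_of_mem (mem_filter.2 ⟨hy, h1⟩)] at e2
    have e3 := hmax w hw
    have e4 := hc w hw
    unfold dg at e3 e4
    omega
  · push Not at hA
    obtain ⟨y, hy, hpy, -⟩ := two p hp p
    obtain ⟨u, hu, hyu, hup⟩ := two y hy p
    have hpu := hA y hy u hu hpy hyu hup
    have hyu' : y ≠ u := by rintro rfl; exact h.Ei _ hyu
    have hdu : W.filter (E u) ⊆ {p, y} := by
      intro x hx
      obtain ⟨hx1, hx2⟩ := mem_filter.1 hx
      by_contra hn
      simp only [mem_insert, mem_singleton, not_or] at hn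
      have hpx := hA u hu x hx1 hpu hx2 hn.1
      have hxu : x ≠ u := by rintro rfl; exact h.Ei _ hx2
      exact h.dis _ _ hx2 (h.f1 hpy hyu hpx hup.symm hn.2 hxu)
    have hdu2 : dg E W u ≤ 2 := (card_le_card hdu).trans card_le_two
    by_cases hB : ∃ y2 ∈ W, E p y2 ∧ y2 ≠ y ∧ y2 ≠ u
    · obtain ⟨y2, h1, h2, h3, h4⟩ := hB
      have : 0 < dg S W u := card_pos.2 ⟨y2, mem_filter.2 ⟨h1, h.f1 hpy hyu h2 hup.symm h3 h4⟩⟩
      have := hc u hu
      omega
    · push Not at hB
      have hdp : W.filter (E p) ⊆ {y, u} := by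
        intro x hx
        obtain ⟨hx1, hx2⟩ := mem_filter.1 hx
        by_contra hn
        simp only [mem_insert, mem_singleton, not_or] at hn
        exact hn.2 (hB x hx1 hx2 hn.1)
      have hdp2 : dg E W p ≤ 2 := (card_le_card hdp).trans card_le_two
      have hS : ∀ v ∈ W, ∀ x ∈ W, ¬ S v x := by
        intro v hv x hx hs
        have h1 : 0 < dg S W v := card_pos.2 ⟨x, mem_filter.2 ⟨hx, hs⟩⟩
        have := hc v hv
        have := hmax v hv
        omega
      obtain ⟨z, hz, hzn⟩ : ∃ z ∈ W, z ∉ ({p, y, u} : Finset ι) := by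
        by_contra hn
        push Not at hn
        have := (card_le_card hn).trans (card_le_three (a := p) (b := y) (c := u))
        omega
      simp only [mem_insert, mem_singleton, not_or] at hzn
      have hpz : ¬ E p z := fun e => hzn.2.2 (hB z hz e hzn.2.1)
      obtain ⟨z', hz', hzz, -⟩ := two z hz z
      have h1 : p ≠ z' := by rintro rfl; exact hpz (h.Es _ _ hzz)
      have h2 : y ≠ z' := by
        rintro rfl
        exact hpz (hA y hy z hz hpy (h.Es _ _ hzz) hzn.1)
      rcases h.ch p y z z' hpy hzz (Ne.symm hzn.1) h1 (Ne.symm hzn.2.1) h2 with h4 | h4 | h4 | h4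
      · exact hS _ hp _ hz h4.1
      · exact hS _ hy _ hz h4.1
      · exact hS _ hp _ hz h4.1
      · exact hS _ hp _ hz' h4.1

theorem dg_le_pred (hi : ∀ x, ¬ E x x) {W : Finset ι} {v : ι} (hv : v ∈ W) :
    dg E W v + 1 ≤ W.card := by
  classical
  have : W.filter (E v) ⊂ W := ⟨filter_subset _ _, fun h => hi v (mem_filter.1 (h hv)).2⟩
  exact card_lt_card this

theorem Cherry.four (h : Cherry E S) {W : Finset ι} (hW : W.card = 4) :
    cnt E W ≤ 6 + cnt S W := by
  classical
  obtain ⟨v, hv, hd⟩ := h.vertex hW.ge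
  have e1 := cnt_erase h.Es h.Ei hv
  have e2 := cnt_erase h.Ss h.Si hv
  have hc : (W.erase v).card = 3 := by rw [card_erase_of_mem hv, hW]
  by_cases h4 : cnt E (W.erase v) ≤ 4
  · omega
  · have hall : ∀ a ∈ W.erase v, ∀ b ∈ W.erase v, a ≠ b → E a b := by
      intro a ha b hb hab
      by_contra hn
      apply h4
      have f1 := cnt_erase h.Es h.Ei ha
      have f2 : dg E (W.erase v) a ≤ 1 := by
        have : (W.erase v).filter (E a) ⊆ ((W.erase v).erase a).erase b := by
          intro x hx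
          obtain ⟨h1, h2⟩ := mem_filter.1 hx
          exact mem_erase.2 ⟨by rintro rfl; exact hn h2,
            mem_erase.2 ⟨by rintro rfl; exact h.Ei _ h2, h1⟩⟩
        have := card_le_card this
        rw [card_erase_of_mem (mem_erase.2 ⟨hab.symm, hb⟩), card_erase_of_mem ha, hc] at this
        exact this
      have f3 : ((W.erase v).erase a).card = 2 := by rw [card_erase_of_mem ha, hc]
      have f4 : cnt E ((W.erase v).erase a) ≤ ((W.erase v).erase a).card • 1 :=
        sum_le_card_nsmul _ _ _ fun x hx => by have := dg_le_pred h.Ei hx; omega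
      rw [f3] at f4
      simp only [smul_eq_mul] at f4
      omega
    have f5 : cnt E (W.erase v) ≤ (W.erase v).card • 2 :=
      sum_le_card_nsmul _ _ _ fun x hx => by have := dg_le_pred h.Ei hx; omega
    rw [hc] at f5
    simp only [smul_eq_mul] at f5
    by_cases h0 : dg E W v = 0
    · omega
    · obtain ⟨x, hx⟩ := card_pos.1 (Nat.pos_of_ne_zero h0)
      obtain ⟨hx1, hx2⟩ := mem_filter.1 hx
      have hxv : x ≠ v := by rintro rfl; exact h.Ei _ hx2
      have hx3 : x ∈ W.erase v := mem_erase.2 ⟨hxv, hx1⟩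
      have f3 : ((W.erase v).erase x).card = 2 := by rw [card_erase_of_mem hx3, hc]
      obtain ⟨y, z, hyz, hyz'⟩ := card_eq_two.1 f3
      have hy : y ∈ (W.erase v).erase x := by rw [hyz']; simp
      have hz : z ∈ (W.erase v).erase x := by rw [hyz']; simp
      obtain ⟨hy1, hy2⟩ := mem_erase.1 hy
      obtain ⟨hz1, hz2⟩ := mem_erase.1 hz
      have hS : S v y ∧ S v z := by
        rcases h.ch v x y z hx2 (hall y hy2 z hz2 hyz) (mem_erase.1 hy2).1.symm
          (mem_erase.1 hz2).1.symm hy1.symm hz1.symm with h5 | h5 | h5 | h5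
        · exact h5
        · exact absurd h5.1 (h.dis _ _ (hall x hx3 y hy2 hy1.symm))
        · exact absurd h5.2 (h.dis _ _ (hall x hx3 y hy2 hy1.symm))
        · exact absurd h5.2 (h.dis _ _ (hall x hx3 z hz2 hz1.symm))
      have g1 : 2 ≤ dg S W v := by
        have : ({y, z} : Finset ι) ⊆ W.filter (S v) := by
          intro a ha
          simp only [mem_insert, mem_singleton] at ha
          rcases ha with rfl | rfl
          · exact mem_filter.2 ⟨(mem_erase.1 hy2).2, hS.1⟩
          · exact mem_filter.2 ⟨(mem_erase.1 hz2).2, hS.2⟩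
        have := card_le_card this
        rwa [card_pair hyz] at this
      have g2 : dg E W v ≤ 1 := by
        have : W.filter (E v) ⊆ {x} := by
          intro a ha
          obtain ⟨ha1, ha2⟩ := mem_filter.1 ha
          by_contra hn
          have : a ∈ (W.erase v).erase x := mem_erase.2 ⟨by simpa using hn,
            mem_erase.2 ⟨by rintro rfl; exact h.Ei _ ha2, ha1⟩⟩
          rw [hyz'] at this
          simp only [mem_insert, mem_singleton] at this
          rcases this with rfl | rfl
          · exact h.dis _ _ ha2 hS.1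
          · exact h.dis _ _ ha2 hS.2
        exact (card_le_card this).trans (card_singleton x).le
      omega

theorem Cherry.bound (h : Cherry E S) : ∀ (t : ℕ) (W : Finset ι), W.card = t + 4 →
    cnt E W ≤ 2 * (t + 3) + cnt S W := by
  intro t
  induction t with
  | zero => intro W hW; exact h.four hW
  | succ t ih =>
    intro W hW
    obtain ⟨v, hv, hd⟩ := h.vertex (W := W) (by omega)
    have e1 := cnt_erase h.Es h.Ei hv
    have e2 := cnt_erase h.Ss h.Si hv
    have := ih (W.erase v) (by rw [card_erase_of_mem hv, hW]; rfl)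
    omega

end Pool.Agent.H830Z.ER
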