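import Mathlib

/-!
# Erdős–Rothschild problems for colour patterns: definitions
-/

set_option autoImplicit false

namespace Pool.Agent.H830Z.ER

open SimpleGraph

/-- A pattern of `K_k`: a partition of the edge set of the complete graph on `Fin k`. -/
abbrev Pattern (k : ℕ) : Type := Setoid (⊤ : SimpleGraph (Fin k)).edgeSet

/-- Some copy of `K_k` in `G` has pattern `P` under the edge colouring `χ`: two edges of the copy
get the same colour exactly when they lie in the same class of `P`. -/
def HasPattern {k r : ℕ} {V : Type} (P : Pattern k) (G : SimpleGraph V)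
    (χ : G.edgeSet → Fin r) : Prop :=
  ∃ f : (⊤ : SimpleGraph (Fin k)) ↪g G,
    ∀ e e', χ (f.mapEdgeSet e) = χ (f.mapEdgeSet e') ↔ P e e'

/-- The number of `(r, P)`-free colourings of `G`. -/
noncomputable def numFree {k : ℕ} (r : ℕ) (P : Pattern k) {V : Type} (G : SimpleGraph V) : ℕ :=
  Nat.card {χ : G.edgeSet → Fin r // ¬ HasPattern P G χ}

/-- `G` has the maximum number of `(r, P)`-free colourings among all `n`-vertex graphs. -/
def Extremal {k : ℕ} (r : ℕ) (P : Pattern k) {n : ℕ} (G : SimpleGraph (Fin n)) : Prop :=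
  ∀ G' : SimpleGraph (Fin n), numFree r P G' ≤ numFree r P G

/-- `r₁(P)`: the least `ρ` such that for every `r ≥ ρ` (`r ≥ 2`) the Turán graph `T_{k-1}(n)` is not
`(r, P)`-extremal for all large `n`. -/
noncomputable def rOne {k : ℕ} (P : Pattern k) : ℕ :=
  sInf {ρ | ∀ r, ρ ≤ r → 2 ≤ r → ∃ n₀, ∀ n, n₀ ≤ n → ¬ Extremal r P (turanGraph n (k - 1))}

/-- For a complete multipartite graph (the part of `u` is the set of vertices not adjacent to `u`):
the part sizes differ by at most one. -/
def Equitable {n : ℕ} (G : SimpleGraph (Fin n)) : Prop :=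
  ∀ u v, {w | ¬ G.Adj u w}.ncard ≤ {w | ¬ G.Adj v w}.ncard + 1

/-- The pattern of `K_4` in which the two disjoint edges `01` and `23` form one class and the other
four edges are singleton classes. -/
def P4 : Pattern 4 where
  r e e' := e = e' ∨ ((e.1 = s(0, 1) ∨ e.1 = s(2, 3)) ∧ (e'.1 = s(0, 1) ∨ e'.1 = s(2, 3)))
  iseqv := ⟨fun _ => Or.inl rfl, fun h => h.elim (fun h => Or.inl h.symm)
    (fun h => Or.inr h.symm), by
      rintro a b c (rfl | h) (rfl | h')
      · exact Or.inl rfl
      · exact Or.inr h'
      · exact Or.inr h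
      · exact Or.inr ⟨h.1, h'.2⟩⟩

end Pool.Agent.H830Z.ER
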