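import Pool.Agent.H830Z.ER.Avg

/-!
The global bound for equitable complete multipartite graphs.
-/

set_option autoImplicit false

namespace Pool.Agent.H830Z.ER

open Finset

variable {V : Type} [Fintype V] [DecidableEq V] (G : SimpleGraph V)
  (L : V → V → Finset (Fin 393217))

open Classical in
/-- edges with empty list -/
noncomputable def e2 (x y : V) : ℝ := if G.Adj x y ∧ L x y = ∅ then 1 else 0

omit [Fintype V] [DecidableEq V] in
theorem e2_nonneg (x y : V) : 0 ≤ e2 G L x y := by unfold e2; split_ifs <;> norm_num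

theorem V0_pos : 0 < V0 := by
  have := V0_ge
  have := Real.log_two_gt_d9
  linarith

theorem V0_le : V0 ≤ 14 := by
  have l1 := log_le_of_pow (x := (65537 : ℝ)) (by norm_num) 1 17 (by norm_num)
  have := Real.log_two_lt_d9
  unfold V0
  rw [log_65536]
  push_cast at l1
  linarith

open Classical in
theorem regimeA [Nonempty V] (hL : ∀ x y, L x y = L y x) {γ : ℝ}
    (h0 : ∑ a, ∑ b, (if ¬ G.Adj a b then (1 : ℝ) else 0) ≤ γ * (Fintype.card V : ℝ) ^ 2)
    (h2 : ∑ a, ∑ b, e2 G L a b ≤ γ * (Fintype.card V : ℝ) ^ 2)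
    (h4 : ∑ y, b4 L y ≤ γ * (Fintype.card V : ℝ) ^ 4) :
    ∑ a, ∑ b, ww G L a b ≤ (V0 + 10 ^ 9 * γ) * (Fintype.card V : ℝ) ^ 2 := by
  have hn : (0 : ℝ) < Fintype.card V := by exact_mod_cast Fintype.card_pos
  have hV := V0_pos
  have h := avg_pen G L hL (m := 48) (M := V0 * (48 * 47)) (by positivity) (fun L' hL' => by
      have := hL'.locB 0 univ (by simp)
      rw [card_univ, Fintype.card_fin] at this
      norm_num at this ⊢
      exact this)
    (fun _ _ => 1 / (Fintype.card V : ℝ)) (fun _ => by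
      rw [sum_const, card_univ, nsmul_eq_mul]; field_simp) (fun _ _ => by positivity)
    (β := 1 / (Fintype.card V : ℝ)) (fun _ _ => le_rfl)
  simp only [sum_const, nsmul_eq_mul, offDiag_card_real, card_univ, Fintype.card_fin,
    ← mul_sum] at h
  have e1 : ∑ a, ∑ b, b2 G L a b ≤ 2 * γ * (Fintype.card V : ℝ) ^ 2 := by
    have : ∑ a, ∑ b, b2 G L a b ≤ ∑ a, ∑ b, ((if ¬ G.Adj a b then (1 : ℝ) else 0) + e2 G L a b) := by
      refine sum_le_sum fun a _ => sum_le_sum fun b _ => ?_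
      unfold b2 e2
      by_cases c1 : G.Adj a b <;> by_cases c2 : L a b = ∅ <;> simp [c1, c2]
    simp only [sum_add_distrib] at this
    linarith
  generalize (Fintype.card V : ℝ) = n at *
  generalize ∑ a, ∑ b, ww G L a b = W at *
  have e3 : 1 / n * (1 / n) * ∑ a, ∑ b, b2 G L a b ≤ 2 * γ := by
    have := mul_le_mul_of_nonneg_left e1 (show 0 ≤ 1 / n * (1 / n) by positivity)
    refine this.trans (le_of_eq ?_)
    field_simp
  have e4 : (1 / n) ^ 4 * ∑ y, b4 L y ≤ γ := by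
    have := mul_le_mul_of_nonneg_left h4 (show 0 ≤ (1 / n) ^ 4 by positivity)
    refine this.trans (le_of_eq ?_)
    field_simp
  have hγ : 0 ≤ γ := le_trans (mul_nonneg (by positivity)
    (sum_nonneg fun _ _ => b4_nonneg L _)) e4
  have e5 : 1 / n * (1 / n) * W ≤ V0 + 10 ^ 9 * γ := by
    push_cast at h
    linarith
  have e6 : W = (1 / n * (1 / n) * W) * n ^ 2 := by field_simp
  rw [e6]
  exact mul_le_mul_of_nonneg_right e5 (by positivity)

theorem regimeB (hL : ∀ x y, L x y = L y x) {t q : ℕ} (hq : 1 ≤ q) (π : V → Fin t)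
    (hπ : ∀ x y, G.Adj x y ↔ π x ≠ π y)
    (hs : ∀ i, q ≤ (univ.filter fun x => π x = i).card ∧ (univ.filter fun x => π x = i).card ≤ q + 1) :
    ∑ a, ∑ b, ww G L a b ≤ ((q : ℝ) + 1) ^ 2 * (V0 * (t : ℝ) ^ 2 + 14 * (t : ℝ) ^ 2 *
      ((1 / (q : ℝ)) ^ 2 * ∑ a, ∑ b, e2 G L a b + (t : ℝ) ^ 4 * ((1 / (q : ℝ)) ^ 4 * ∑ y, b4 L y))) := by
  have hq' : (0 : ℝ) < q := by exact_mod_cast hq
  have hV := V0_pos
  let N : Fin t → ℝ := fun i => (univ.filter fun x => π x = i).card
  have hN1 : ∀ i, (q : ℝ) ≤ N i := fun i => by simp only [N]; exact_mod_cast (hs i).1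
  have hN2 : ∀ i, N i ≤ q + 1 := fun i => by simp only [N]; exact_mod_cast (hs i).2
  have hN0 : ∀ i, 0 < N i := fun i => hq'.trans_le (hN1 i)
  let μ : Fin t → V → ℝ := fun i v => if π v = i then 1 / N i else 0
  have h := avg_pen G L hL (m := t) (M := V0 * (t : ℝ) ^ 2) (by positivity) (fun L' hL' => by
      simpa using hL'.locA univ) μ (fun i => by
      simp only [μ]
      rw [← sum_filter, sum_const, nsmul_eq_mul]
      exact mul_one_div_cancel (hN0 i).ne') (fun i v => by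
      simp only [μ]
      split_ifs
      · exact (one_div_pos.2 (hN0 i)).le
      · exact le_rfl) (β := 1 / (q : ℝ)) (fun i v => by
      simp only [μ]
      split_ifs
      · exact one_div_le_one_div_of_le hq' (hN1 i)
      · positivity)
  have key : ∀ φ : V → V → ℝ, ∑ p ∈ (univ : Finset (Fin t)).offDiag, ∑ a, ∑ b,
      μ p.1 a * μ p.2 b * φ a b =
      ∑ a, ∑ b, if π a ≠ π b then 1 / N (π a) * (1 / N (π b)) * φ a b else 0 := by
    intro φ
    rw [sum_comm]
    refine sum_congr rfl fun a _ => ?_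
    rw [sum_comm]
    refine sum_congr rfl fun b _ => ?_
    have : ∀ p : Fin t × Fin t, μ p.1 a * μ p.2 b * φ a b =
        if (π a, π b) = p then 1 / N (π a) * (1 / N (π b)) * φ a b else 0 := by
      rintro ⟨i, j⟩
      simp only [μ, Prod.mk.injEq]
      by_cases c1 : π a = i <;> by_cases c2 : π b = j <;> simp [c1, c2]
    simp only [this, sum_ite_eq, mem_offDiag, mem_univ, true_and]
  rw [key, key] at h
  have e1 : (1 / ((q : ℝ) + 1)) ^ 2 * ∑ a, ∑ b, ww G L a b ≤
      ∑ a, ∑ b, if π a ≠ π b then 1 / N (π a) * (1 / N (π b)) * ww G L a b else 0 := by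
    simp only [mul_sum]
    refine sum_le_sum fun a _ => sum_le_sum fun b _ => ?_
    split_ifs with c
    · refine mul_le_mul_of_nonneg_right ?_ (ww_nonneg G L a b)
      rw [sq]
      exact mul_le_mul (one_div_le_one_div_of_le (hN0 _) (hN2 _))
        (one_div_le_one_div_of_le (hN0 _) (hN2 _)) (by positivity) (one_div_pos.2 (hN0 _)).le
    · unfold ww
      rw [if_neg (fun h => c ((hπ a b).1 h)), mul_zero]
  have e3 : (∑ a, ∑ b, if π a ≠ π b then 1 / N (π a) * (1 / N (π b)) * b2 G L a b else 0) ≤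
      (1 / (q : ℝ)) ^ 2 * ∑ a, ∑ b, e2 G L a b := by
    simp only [mul_sum]
    refine sum_le_sum fun a _ => sum_le_sum fun b _ => ?_
    split_ifs with c
    · have : b2 G L a b = e2 G L a b := by
        unfold b2 e2
        simp [(hπ a b).2 c]
      rw [this]
      refine mul_le_mul_of_nonneg_right ?_ (e2_nonneg G L a b)
      rw [sq]
      exact mul_le_mul (one_div_le_one_div_of_le hq' (hN1 _))
        (one_div_le_one_div_of_le hq' (hN1 _)) (one_div_pos.2 (hN0 _)).le (by positivity)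
    · exact mul_nonneg (by positivity) (e2_nonneg G L a b)
  have e4 : ∑ a, ∑ b, ww G L a b =
      ((q : ℝ) + 1) ^ 2 * ((1 / ((q : ℝ) + 1)) ^ 2 * ∑ a, ∑ b, ww G L a b) := by field_simp
  rw [e4]
  refine mul_le_mul_of_nonneg_left ?_ (by positivity)
  have hm : (0 : ℝ) ≤ 14 * (t : ℝ) ^ 2 := by positivity
  nlinarith [mul_le_mul_of_nonneg_left e3 hm]

theorem exists_parts {n : ℕ} (hn : 0 < n) (G : SimpleGraph (Fin n)) (h1 : G.IsCompleteMultipartite)
    (h2 : Equitable G) : ∃ (t q : ℕ) (π : Fin n → Fin t), 1 ≤ q ∧ (∀ x y, G.Adj x y ↔ π x ≠ π y) ∧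
      (∀ i, q ≤ (univ.filter fun x => π x = i).card ∧
        (univ.filter fun x => π x = i).card ≤ q + 1) ∧ t * q ≤ n := by
  classical
  let e := Fintype.equivFin (Quotient h1.setoid)
  let π : Fin n → Fin (Fintype.card (Quotient h1.setoid)) := fun x => e (Quotient.mk _ x)
  have hπ : ∀ x y, G.Adj x y ↔ π x ≠ π y := by
    intro x y
    simp only [π, ne_eq, EmbeddingLike.apply_eq_iff_eq, Quotient.eq]
    exact not_not.symm
  have hsz : ∀ u, (univ.filter fun x => π x = π u).card = {w | ¬ G.Adj u w}.ncard := by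
    intro u
    rw [← Set.ncard_coe_finset]
    congr 1
    ext w
    simp only [coe_filter, mem_univ, true_and, Set.mem_setOf_eq, hπ, ne_eq, not_not, eq_comm]
  have hsurj : ∀ i, ∃ u, π u = i := by
    intro i
    obtain ⟨u, hu⟩ := Quotient.exists_rep (e.symm i)
    exact ⟨u, by simp [π, hu]⟩
  haveI : Nonempty (Fin n) := ⟨⟨0, hn⟩⟩
  obtain ⟨u0, -, hu0⟩ := exists_min_image (univ : Finset (Fin n))
    (fun u => {w | ¬ G.Adj u w}.ncard) univ_nonempty
  have hs : ∀ i, {w | ¬ G.Adj u0 w}.ncard ≤ (univ.filter fun x => π x = i).card ∧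
      (univ.filter fun x => π x = i).card ≤ {w | ¬ G.Adj u0 w}.ncard + 1 := by
    intro i
    obtain ⟨u, rfl⟩ := hsurj i
    rw [hsz]
    exact ⟨hu0 u (mem_univ _), h2 u u0⟩
  refine ⟨_, _, π, ?_, hπ, hs, ?_⟩
  · rw [← hsz]
    exact card_pos.2 ⟨u0, by simp⟩
  · have e1 := card_eq_sum_card_fiberwise (f := π) (s := univ) (t := univ) (fun _ _ => mem_univ _)
    have e2 := card_nsmul_le_sum univ (fun i => (univ.filter fun x => π x = i).card) _
      (fun i _ => (hs i).1)
    rw [← e1] at e2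
    simpa using e2

theorem glob {η : ℝ} (hη : 0 < η) : ∃ γ : ℝ, 0 < γ ∧ ∃ n₀ : ℕ, ∀ n, n₀ ≤ n →
    ∀ G : SimpleGraph (Fin n), G.IsCompleteMultipartite → Equitable G →
      ∀ L : Fin n → Fin n → Finset (Fin 393217), (∀ x y, L x y = L y x) →
        ∑ a, ∑ b, e2 G L a b ≤ γ * (n : ℝ) ^ 2 → ∑ y, b4 L y ≤ γ * (n : ℝ) ^ 4 →
          ∑ a, ∑ b, ww G L a b ≤ (V0 + η) * (n : ℝ) ^ 2 := by
  classical
  obtain ⟨R, hR⟩ : ∃ R : ℝ, R = 2 * 10 ^ 9 / η := ⟨_, rfl⟩
  have hR0 : 0 < R := by rw [hR]; positivity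
  obtain ⟨γ, hγ0, hγ1, hγ2⟩ : ∃ γ : ℝ, 0 < γ ∧ γ ≤ 2 / R ∧
      γ * (112 * R ^ 2 * (R ^ 2 + R ^ 8)) ≤ η := by
    refine ⟨min (2 / R) (η / (112 * R ^ 2 * (R ^ 2 + R ^ 8))), by positivity, min_le_left _ _, ?_⟩
    rw [← le_div_iff₀ (by positivity)]
    exact min_le_right _ _
  obtain ⟨n₀, hn₀⟩ := exists_nat_ge (R + 84 * R / η + 1)
  refine ⟨γ, hγ0, n₀, fun n hn G h1 h2 L hL h3 h4 => ?_⟩
  have hn' : R + 84 * R / η + 1 ≤ n := hn₀.trans (by exact_mod_cast hn)
  have hp : 0 ≤ 84 * R / η := by positivity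
  have hn0 : (0 : ℝ) < n := by linarith
  have hn1 : 0 < n := by exact_mod_cast hn0
  haveI : Nonempty (Fin n) := ⟨⟨0, hn1⟩⟩
  obtain ⟨t, q, π, hq, hπ, hs, htq⟩ := exists_parts hn1 G h1 h2
  have hq' : (1 : ℝ) ≤ q := by exact_mod_cast hq
  by_cases hc : ((q : ℝ) + 1) * R ≤ 2 * n
  · have h5 : (q : ℝ) + 1 ≤ 2 / R * n := by
      rw [div_mul_eq_mul_div, le_div_iff₀ hR0]; exact hc
    have e := regimeA G L hL (γ := 2 / R) (by
      rw [Fintype.card_fin]
      have : ∀ a : Fin n, ∑ b, (if ¬ G.Adj a b then (1 : ℝ) else 0) ≤ q + 1 := by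
        intro a
        rw [sum_boole]
        have : (univ.filter fun b => ¬ G.Adj a b) = univ.filter fun x => π x = π a := by
          ext b
          simp only [mem_filter, mem_univ, true_and, hπ, ne_eq, not_not, eq_comm]
        rw [this]
        exact_mod_cast (hs _).2
      have := sum_le_card_nsmul univ _ _ fun a _ => this a
      rw [card_univ, Fintype.card_fin, nsmul_eq_mul] at this
      nlinarith)
      (by rw [Fintype.card_fin]
          exact h3.trans (mul_le_mul_of_nonneg_right hγ1 (by positivity)))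
      (by rw [Fintype.card_fin]
          exact h4.trans (mul_le_mul_of_nonneg_right hγ1 (by positivity)))
    rw [Fintype.card_fin] at e
    refine e.trans (le_of_eq ?_)
    rw [hR]
    field_simp
  · push Not at hc
    have e := regimeB G L hL hq π hπ hs
    have htq' : (t : ℝ) * q ≤ n := by exact_mod_cast htq
    have hq0 : (0 : ℝ) < q := by linarith
    have a1 : (n : ℝ) ≤ R * q := by nlinarith
    have a2 : (t : ℝ) ≤ R := le_of_mul_le_mul_right (htq'.trans a1) hq0
    have ht0 : (0 : ℝ) ≤ t := by positivity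
    have a3 : 1 / (q : ℝ) * n ≤ R := by
      rw [one_div_mul_eq_div, div_le_iff₀ hq0]; exact a1
    have a4 : (1 / (q : ℝ)) ^ 2 * ∑ a, ∑ b, e2 G L a b ≤ γ * R ^ 2 := by
      refine (mul_le_mul_of_nonneg_left h3 (by positivity)).trans ?_
      have := pow_le_pow_left₀ (by positivity) a3 2
      calc _ = γ * (1 / (q : ℝ) * n) ^ 2 := by ring
        _ ≤ _ := mul_le_mul_of_nonneg_left this hγ0.le
    have a5 : (1 / (q : ℝ)) ^ 4 * ∑ y, b4 L y ≤ γ * R ^ 4 := by
      refine (mul_le_mul_of_nonneg_left h4 (by positivity)).trans ?_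
      have := pow_le_pow_left₀ (by positivity) a3 4
      calc _ = γ * (1 / (q : ℝ) * n) ^ 4 := by ring
        _ ≤ _ := mul_le_mul_of_nonneg_left this hγ0.le
    have a6 : (t : ℝ) ^ 4 * ((1 / (q : ℝ)) ^ 4 * ∑ y, b4 L y) ≤ R ^ 4 * (γ * R ^ 4) :=
      mul_le_mul (pow_le_pow_left₀ ht0 a2 4) a5
        (mul_nonneg (by positivity) (sum_nonneg fun _ _ => b4_nonneg L _)) (by positivity)
    have a7 : 14 * (t : ℝ) ^ 2 * ((1 / (q : ℝ)) ^ 2 * ∑ a, ∑ b, e2 G L a b +
        (t : ℝ) ^ 4 * ((1 / (q : ℝ)) ^ 4 * ∑ y, b4 L y)) ≤ η / 8 := by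
      have b1 : 14 * (t : ℝ) ^ 2 ≤ 14 * R ^ 2 := by
        have := pow_le_pow_left₀ ht0 a2 2
        linarith
      have b2 := mul_le_mul b1 (add_le_add a4 a6) (add_nonneg (mul_nonneg (by positivity)
        (sum_nonneg fun _ _ => sum_nonneg fun _ _ => e2_nonneg G L _ _)) (mul_nonneg (by positivity)
        (mul_nonneg (by positivity) (sum_nonneg fun _ _ => b4_nonneg L _)))) (by positivity)
      refine b2.trans ?_
      nlinarith
    have ht1 : (1 : ℝ) ≤ t := by
      have : 0 < t := Fin.pos (π ⟨0, hn1⟩)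
      exact_mod_cast this
    have a8 : ((q : ℝ) + 1) ^ 2 ≤ 4 * (n : ℝ) ^ 2 := by
      have : (q : ℝ) + 1 ≤ 2 * n := by nlinarith
      nlinarith
    have a9 : ((q : ℝ) + 1) ^ 2 * (t : ℝ) ^ 2 ≤ (n : ℝ) ^ 2 + 3 * R * n := by
      have b1 : ((q : ℝ) + 1) * t ≤ n + R := by nlinarith
      have b2 := pow_le_pow_left₀ (by positivity) b1 2
      have b3 : R ≤ n := by linarith
      nlinarith
    have a10 : 42 * R * n ≤ η / 2 * (n : ℝ) ^ 2 := by
      have b1 : 84 * R / η ≤ n := by linarith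
      rw [div_le_iff₀ hη] at b1
      nlinarith
    have hV := V0_pos
    have hV' := V0_le
    have a11 := mul_le_mul_of_nonneg_left a9 hV.le
    have a12 := mul_le_mul a8 a7 (mul_nonneg (by positivity) (add_nonneg (mul_nonneg (by positivity)
        (sum_nonneg fun _ _ => sum_nonneg fun _ _ => e2_nonneg G L _ _)) (mul_nonneg (by positivity)
        (mul_nonneg (by positivity) (sum_nonneg fun _ _ => b4_nonneg L _))))) (by positivity)
    have a13 : V0 * (3 * R * n) ≤ 14 * (3 * R * n) :=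
      mul_le_mul_of_nonneg_right hV' (by positivity)
    nlinarith

end Pool.Agent.H830Z.ER
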