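import Pool.Agent.H830Z.ER.Comb
import Pool.Agent.H830Z.ER.Col

/-!
Local bounds for pattern-free list assignments on complete graphs.
-/

set_option autoImplicit false

namespace Pool.Agent.H830Z.ER

open Finset

/-- the lists admit the pattern -/
def PatL {κ : Type} (A B C D E F : Finset κ) : Prop :=
  ∃ c a b d e, c ∈ A ∧ c ∈ B ∧ a ∈ C ∧ b ∈ D ∧ d ∈ E ∧ e ∈ F ∧ D5 c a b d e

/-- pattern-free assignments of non-empty lists -/
structure Tm {ι κ : Type} (L : ι → ι → Finset κ) : Prop where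
  sym : ∀ i j, L i j = L j i
  ne : ∀ i j, i ≠ j → (L i j).Nonempty
  free : ∀ x y z w, x ≠ y → z ≠ w → x ≠ z → x ≠ w → y ≠ z → y ≠ w →
    ¬ PatL (L x y) (L z w) (L x z) (L x w) (L y z) (L y w)

variable {ι κ : Type} [DecidableEq ι] [DecidableEq κ]

theorem pick {D : Finset κ} (hD : 5 ≤ D.card) (a b c d : κ) :
    ∃ x ∈ D, x ≠ a ∧ x ≠ b ∧ x ≠ c ∧ x ≠ d := by
  by_contra hc
  have : D ⊆ {a, b, c, d} := by
    intro x hx
    by_contra hn
    simp only [mem_insert, mem_singleton, not_or] at hn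
    exact hc ⟨x, hx, hn⟩
  have h1 := (card_le_card this).trans (card_le_four (a := a) (b := b) (c := c) (d := d))
  omega

theorem patL_of {A B C D E F : Finset κ} {c a : κ} (h1 : c ∈ A) (h2 : c ∈ B) (h3 : a ∈ C)
    (h4 : a ≠ c) (hD : 5 ≤ D.card) (hE : 5 ≤ E.card) (hF : 5 ≤ F.card) : PatL A B C D E F := by
  obtain ⟨b, hb, b1, b2, -, -⟩ := pick hD c a a a
  obtain ⟨d, hd, d1, d2, d3, -⟩ := pick hE c a b b
  obtain ⟨e, he, e1, e2, e3, e4⟩ := pick hF c a b d
  exact ⟨c, a, b, d, e, h1, h2, h3, hb, hd, he, h4.symm, b1.symm, d1.symm, e1.symm, b2.symm,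
    d2.symm, e2.symm, d3.symm, e3.symm, e4.symm⟩

variable {L : ι → ι → Finset κ}

omit [DecidableEq ι] in
theorem Tm.opp (h : Tm L) {c : κ} {x y z w : ι} (hxy : x ≠ y) (hzw : z ≠ w) (hxz : x ≠ z)
    (hxw : x ≠ w) (hyz : y ≠ z) (hyw : y ≠ w) (c1 : c ∈ L x y) (c2 : c ∈ L z w)
    (b1 : 5 ≤ (L x y).card) (b2 : 5 ≤ (L z w).card) (g1 : L x z ≠ {c}) (g2 : L y w ≠ {c})
    (b3 : 5 ≤ (L x w).card) (b4 : 5 ≤ (L y z).card) : False := by
  have ex : ∀ A : Finset κ, A.Nonempty → A ≠ {c} → ∃ a ∈ A, a ≠ c := by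
    intro A hA hne
    by_contra hc
    push Not at hc
    exact hne (eq_singleton_iff_nonempty_unique_mem.2 ⟨hA, hc⟩)
  obtain ⟨a, ha, hac⟩ := ex _ (h.ne x z hxz) g1
  obtain ⟨e, he, hec⟩ := ex _ (h.ne y w hyw) g2
  by_cases hae : a = e
  · subst hae
    obtain ⟨b, hb, b5, -, -, -⟩ := pick b1 a a a a
    apply h.free x z y w hxz hyw hxy hxw hyz.symm hzw
    exact patL_of ha he hb b5 b3 (by rw [h.sym]; exact b4) b2
  · obtain ⟨b, hb, e1, e2, e3, -⟩ := pick b3 c a e e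
    obtain ⟨d, hd, d1, d2, d3, d4⟩ := pick b4 c a e b
    exact h.free x y z w hxy hzw hxz hxw hyz hyw ⟨c, a, b, d, e, c1, c2, ha, hb, hd, he, hac.symm,
      e1.symm, d1.symm, hec.symm, e2.symm, d2.symm, hae, d4.symm, e3, d3⟩

/-- big edges whose list contains `c` -/
def EE (L : ι → ι → Finset κ) (W : Finset ι) (c : κ) (i j : ι) : Prop :=
  i ∈ W ∧ j ∈ W ∧ i ≠ j ∧ 5 ≤ (L i j).card ∧ c ∈ L i j

/-- small edges -/
def SS (L : ι → ι → Finset κ) (i j : ι) : Prop := i ≠ j ∧ (L i j).card ≤ 4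

omit [DecidableEq ι] in
theorem Tm.cherry (h : Tm L) (W : Finset ι) {c : κ}
    (hg : ∀ i ∈ W, ∀ j ∈ W, i ≠ j → L i j ≠ {c}) : Cherry (EE L W c) (SS L) where
  Es x y h1 := ⟨h1.2.1, h1.1, h1.2.2.1.symm, h.sym x y ▸ h1.2.2.2⟩
  Ss x y h1 := ⟨h1.1.symm, h.sym x y ▸ h1.2⟩
  Ei x h1 := h1.2.2.1 rfl
  Si x h1 := h1.1 rfl
  dis x y h1 h2 := by have := h1.2.2.2.1; have := h2.2; omega
  ch x y z w h1 h2 hxz hxw hyz hyw := by
    obtain ⟨hx, hy, hxy, b1, c1⟩ := h1
    obtain ⟨hz, hw, hzw, b2, c2⟩ := h2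
    by_contra hc
    unfold SS at hc
    by_cases k : 5 ≤ (L x w).card ∧ 5 ≤ (L y z).card
    · exact h.opp hxy hzw hxz hxw hyz hyw c1 c2 b1 b2 (hg x hx z hz hxz) (hg y hy w hw hyw) k.1 k.2
    · have k' : 5 ≤ (L x z).card ∧ 5 ≤ (L y w).card := by
        simp only [ne_eq, hxz, hxw, hyz, hyw, not_false_eq_true, true_and] at hc
        omega
      exact h.opp hxy hzw.symm hxw hxz hyw hyz c1 (h.sym z w ▸ c2) b1 (h.sym z w ▸ b2)
        (hg x hx w hw hxw) (hg y hy z hz hyz) k'.1 k'.2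

open Classical in
theorem cnt_eq {E : ι → ι → Prop} (hi : ∀ x, ¬ E x x) (W : Finset ι) :
    cnt E W = (W.offDiag.filter fun p => E p.1 p.2).card := by
  unfold cnt dg
  rw [card_eq_sum_card_fiberwise (f := Prod.fst) (t := W)]
  · refine sum_congr rfl fun v hv => ?_
    apply card_bij (fun u _ => (v, u))
    · intro u hu
      obtain ⟨h1, h2⟩ := mem_filter.1 hu
      exact mem_filter.2 ⟨mem_filter.2 ⟨mem_offDiag.2 ⟨hv, h1, fun (e : v = u) => hi u (e ▸ h2)⟩, h2⟩,
        rfl⟩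
    · intro a _ b _ h
      exact congrArg Prod.snd h
    · rintro ⟨a, b⟩ hp
      obtain ⟨h1, rfl⟩ := mem_filter.1 hp
      obtain ⟨h2, h3⟩ := mem_filter.1 h1
      exact ⟨b, mem_filter.2 ⟨(mem_offDiag.1 h2).2.1, h3⟩, rfl⟩
  · intro p hp
    exact (mem_offDiag.1 (mem_filter.1 (mem_coe.1 hp)).1).1

theorem Tm.total [Fintype κ] (h : Tm L) {W : Finset ι} {t : ℕ} (hW : W.card = t + 4) :
    ∑ p ∈ W.offDiag, (if 5 ≤ (L p.1 p.2).card then (L p.1 p.2).card else 0) ≤
      Fintype.card κ * (2 * (t + 3) + cnt (SS L) W) + cnt (SS L) W * (t + 4) ^ 2 := by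
  classical
  have e1 : ∑ p ∈ W.offDiag, (if 5 ≤ (L p.1 p.2).card then (L p.1 p.2).card else 0) =
      ∑ c, cnt (EE L W c) W := by
    simp only [fun c => cnt_eq (E := EE L W c) (fun x h1 => h1.2.2.1 rfl) W, card_filter]
    rw [sum_comm]
    refine sum_congr rfl fun p hp => ?_
    obtain ⟨h1, h2, h3⟩ := mem_offDiag.1 hp
    simp only [EE, h1, h2, ne_eq, h3, not_false_eq_true, true_and]
    split_ifs with h4
    · simp [h4]
    · simp [h4]
  let X := (univ : Finset κ).filter fun c => ∃ i ∈ W, ∃ j ∈ W, i ≠ j ∧ L i j = {c}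
  have e2 : X.card ≤ cnt (SS L) W := by
    rw [cnt_eq (fun x h1 => h1.1 rfl)]
    have : X.image (fun c => ({c} : Finset κ)) ⊆
        (W.offDiag.filter fun p => SS L p.1 p.2).image fun p => L p.1 p.2 := by
      intro A hA
      obtain ⟨c, hc, rfl⟩ := mem_image.1 hA
      obtain ⟨i, hi, j, hj, hij, h1⟩ := (mem_filter.1 hc).2
      exact mem_image.2 ⟨(i, j), mem_filter.2 ⟨mem_offDiag.2 ⟨hi, hj, hij⟩, hij, by simp [h1]⟩, h1⟩
    have h1 := (card_le_card this).trans card_image_le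
    rwa [card_image_of_injective _ singleton_injective] at h1
  have e3 : ∀ c, cnt (EE L W c) W ≤
      (2 * (t + 3) + cnt (SS L) W) + if c ∈ X then (t + 4) ^ 2 else 0 := by
    intro c
    split_ifs with hc
    · have : cnt (EE L W c) W ≤ W.card • W.card :=
        sum_le_card_nsmul _ _ _ fun x _ => card_filter_le _ _
      rw [hW, smul_eq_mul, ← sq] at this
      omega
    · refine (h.cherry W ?_).bound t W hW
      intro i hi j hj hij h1
      exact hc (mem_filter.2 ⟨mem_univ _, i, hi, j, hj, hij, h1⟩)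
  rw [e1]
  refine (sum_le_sum fun c _ => e3 c).trans ?_
  rw [sum_add_distrib, sum_const, card_univ, smul_eq_mul, sum_ite_mem, univ_inter, sum_const,
    smul_eq_mul]
  exact Nat.add_le_add_left (Nat.mul_le_mul_right _ e2) _

/-- the weight of a list assignment -/
noncomputable def SL (L : ι → ι → Finset κ) (W : Finset ι) : ℝ :=
  ∑ p ∈ W.offDiag, Real.log (L p.1 p.2).card

theorem offDiag_card_real (W : Finset ι) :
    (W.offDiag.card : ℝ) = W.card * (W.card - 1) := by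
  rw [offDiag_card, Nat.cast_sub (Nat.le_mul_self _)]
  push_cast
  ring

theorem Tm.tangent [Fintype κ] (h : Tm L) {W : Finset ι} (hW : 4 ≤ W.card) {τ : ℝ} (hτ : 0 < τ) :
    SL L W ≤ W.card * (W.card - 1) * (Real.log τ - 1) + 2 * Fintype.card κ * (W.card - 1) / τ -
      cnt (SS L) W * (Real.log τ - 1 - Real.log 4 - (Fintype.card κ + W.card ^ 2) / τ) := by
  classical
  obtain ⟨t, ht⟩ : ∃ t, W.card = t + 4 := ⟨W.card - 4, by omega⟩
  have e1 : ∀ p ∈ W.offDiag, Real.log (L p.1 p.2).card ≤ (Real.log τ - 1) +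
      ((if 5 ≤ (L p.1 p.2).card then (L p.1 p.2).card else 0 : ℕ) : ℝ) / τ -
      (if SS L p.1 p.2 then 1 else 0) * (Real.log τ - 1 - Real.log 4) := by
    intro p hp
    have hne := (mem_offDiag.1 hp).2.2
    have hpos : (0 : ℝ) < (L p.1 p.2).card := by exact_mod_cast (h.ne _ _ hne).card_pos
    by_cases h4 : 5 ≤ (L p.1 p.2).card
    · rw [if_pos h4, if_neg (fun h5 => by have := h5.2; omega)]
      have := Real.log_le_sub_one_of_pos (div_pos hpos hτ)
      rw [Real.log_div hpos.ne' hτ.ne'] at this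
      linarith
    · rw [if_neg h4, if_pos ⟨hne, by omega⟩]
      have : Real.log (L p.1 p.2).card ≤ Real.log 4 :=
        Real.log_le_log hpos (by exact_mod_cast (show (L p.1 p.2).card ≤ 4 by omega))
      simp only [Nat.cast_zero, zero_div]
      linarith
  have e2 := sum_le_sum e1
  rw [sum_sub_distrib, sum_add_distrib, sum_const, nsmul_eq_mul, ← sum_div, ← sum_mul,
    offDiag_card_real, sum_boole, ← cnt_eq (fun x h1 => h1.1 rfl), ← Nat.cast_sum] at e2
  have e3 : ((∑ p ∈ W.offDiag, (if 5 ≤ (L p.1 p.2).card then (L p.1 p.2).card else 0) : ℕ) : ℝ) ≤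
      Fintype.card κ * (2 * (W.card - 1) + cnt (SS L) W) + cnt (SS L) W * W.card ^ 2 := by
    have := h.total ht
    rw [ht]
    push_cast
    have h2 : ((∑ p ∈ W.offDiag, (if 5 ≤ (L p.1 p.2).card then (L p.1 p.2).card else 0) : ℕ) : ℝ) ≤
      ((Fintype.card κ * (2 * (t + 3) + cnt (SS L) W) + cnt (SS L) W * (t + 4) ^ 2 : ℕ) : ℝ) := by
      exact_mod_cast this
    push_cast at h2
    linarith
  have e4 := div_le_div_of_nonneg_right e3 hτ.le
  unfold SL
  have e5 : (Fintype.card κ * (2 * (W.card - 1) + cnt (SS L) W) + cnt (SS L) W * W.card ^ 2 : ℝ) / τ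
      = 2 * Fintype.card κ * (W.card - 1) / τ +
        cnt (SS L) W * ((Fintype.card κ + W.card ^ 2) / τ) := by ring
  linarith

theorem log_chord {A l : ℕ} (hA : 1 ≤ A) (hl : 1 ≤ l) :
    Real.log l ≤ Real.log A + ((l : ℝ) - A) * (Real.log (A + 1) - Real.log A) := by
  have hA' : (0 : ℝ) < A := by exact_mod_cast hA
  have hl' : (0 : ℝ) < l := by exact_mod_cast hl
  rcases le_total A l with h | h
  · obtain ⟨k, rfl⟩ := Nat.exists_eq_add_of_le h
    have h1 := one_add_mul_le_pow (a := 1 / (A : ℝ)) (by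
      have : (0 : ℝ) ≤ 1 / A := by positivity
      linarith) k
    have h2 : ((A + k : ℕ) : ℝ) / A ≤ ((A + 1) / A) ^ k := by
      have e1 : ((A + k : ℕ) : ℝ) / A = 1 + k * (1 / A) := by push_cast; field_simp
      have e2 : ((A : ℝ) + 1) / A = 1 + 1 / A := by field_simp
      rw [e1, e2]
      exact h1
    have h3 := Real.log_le_log (div_pos hl' hA') h2
    rw [Real.log_div hl'.ne' hA'.ne', Real.log_pow, Real.log_div (by positivity) hA'.ne'] at h3
    push_cast at h3 ⊢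
    linarith
  · obtain ⟨k, rfl⟩ := Nat.exists_eq_add_of_le h
    have h1 := one_add_mul_le_pow (a := -(1 / (((l + k : ℕ) : ℝ) + 1))) (by
      have : 1 / (((l + k : ℕ) : ℝ) + 1) ≤ 1 := by
        rw [div_le_one (by positivity)]; linarith
      linarith) k
    have h2 : (l : ℝ) / ((l + k : ℕ) : ℝ) ≤ (((l + k : ℕ) : ℝ) / (((l + k : ℕ) : ℝ) + 1)) ^ k := by
      have e : 1 + -(1 / (((l + k : ℕ) : ℝ) + 1)) = ((l + k : ℕ) : ℝ) / (((l + k : ℕ) : ℝ) + 1) := by
        field_simp; ring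
      rw [e] at h1
      refine le_trans ?_ h1
      have hk : (0 : ℝ) ≤ k := by positivity
      rw [div_le_iff₀ hA']
      have e2 : (1 + k * -(1 / (((l + k : ℕ) : ℝ) + 1))) * ((l + k : ℕ) : ℝ) =
          l + k / (((l + k : ℕ) : ℝ) + 1) := by
        push_cast; field_simp; ring
      rw [e2]
      have : 0 ≤ k / (((l + k : ℕ) : ℝ) + 1) := by positivity
      linarith
    have h3 := Real.log_le_log (div_pos hl' hA') h2
    rw [Real.log_div hl'.ne' hA'.ne', Real.log_pow, Real.log_div hA'.ne' (by positivity)] at h3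
    push_cast at h3 ⊢
    linarith

theorem Tm.chord [Fintype κ] (h : Tm L) {W : Finset ι} (hW : 4 ≤ W.card) (hb : cnt (SS L) W = 0)
    {A : ℕ} (hA : 1 ≤ A) : SL L W ≤ W.card * (W.card - 1) * Real.log A +
      (2 * Fintype.card κ * (W.card - 1) - W.card * (W.card - 1) * A) *
        (Real.log (A + 1) - Real.log A) := by
  classical
  obtain ⟨t, ht⟩ : ∃ t, W.card = t + 4 := ⟨W.card - 4, by omega⟩
  have e0 := h.total ht
  rw [hb] at e0
  rw [cnt_eq (fun x h1 => h1.1 rfl), card_eq_zero, filter_eq_empty_iff] at hb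
  have e1 : ∑ p ∈ W.offDiag, (if 5 ≤ (L p.1 p.2).card then (L p.1 p.2).card else 0) =
      ∑ p ∈ W.offDiag, (L p.1 p.2).card := by
    refine sum_congr rfl fun p hp => if_pos ?_
    by_contra hc
    exact hb hp ⟨(mem_offDiag.1 hp).2.2, by omega⟩
  rw [e1] at e0
  have e2 : ∑ p ∈ W.offDiag, ((L p.1 p.2).card : ℝ) ≤ 2 * Fintype.card κ * (W.card - 1) := by
    rw [ht]
    have : ((∑ p ∈ W.offDiag, (L p.1 p.2).card : ℕ) : ℝ) ≤
      ((Fintype.card κ * (2 * (t + 3) + 0) + 0 * (t + 4) ^ 2 : ℕ) : ℝ) := by exact_mod_cast e0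
    push_cast at this ⊢
    linarith
  have e3 := sum_le_sum fun p (hp : p ∈ W.offDiag) =>
    log_chord hA (h.ne _ _ (mem_offDiag.1 hp).2.2).card_pos
  rw [sum_add_distrib, sum_const, nsmul_eq_mul, ← sum_mul, sum_sub_distrib, sum_const,
    nsmul_eq_mul, offDiag_card_real] at e3
  have hA' : (0 : ℝ) < A := by exact_mod_cast hA
  have e4 : 0 ≤ Real.log (A + 1) - Real.log A :=
    sub_nonneg.2 (Real.log_le_log hA' (by linarith))
  unfold SL
  nlinarith [mul_le_mul_of_nonneg_right e2 e4]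

omit [DecidableEq κ] in
theorem SL_trivial [Fintype κ] (h : Tm L) (W : Finset ι) :
    SL L W ≤ W.card * (W.card - 1) * Real.log (Fintype.card κ) := by
  have e3 : SL L W ≤ W.offDiag.card • Real.log (Fintype.card κ) :=
    sum_le_card_nsmul _ _ _ fun p hp => Real.log_le_log
      (by exact_mod_cast (h.ne _ _ (mem_offDiag.1 hp).2.2).card_pos)
      (by exact_mod_cast card_le_univ _)
  rwa [nsmul_eq_mul, offDiag_card_real] at e3

omit [DecidableEq κ] in
theorem SL_erase (L : ι → ι → Finset κ) (W : Finset ι) :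
    ∑ v ∈ W, SL L (W.erase v) = (W.card - 2) * SL L W := by
  have e1 : ∀ v ∈ W, SL L (W.erase v) =
      ∑ p ∈ W.offDiag, if p.1 ≠ v ∧ p.2 ≠ v then Real.log (L p.1 p.2).card else 0 := by
    intro v _
    unfold SL
    rw [← sum_filter]
    refine sum_congr ?_ fun _ _ => rfl
    ext p
    simp only [mem_offDiag, mem_erase, mem_filter]
    tauto
  rw [sum_congr rfl e1, sum_comm]
  unfold SL
  rw [mul_sum]
  refine sum_congr rfl fun p hp => ?_
  obtain ⟨h1, h2, h3⟩ := mem_offDiag.1 hp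
  rw [← sum_filter, sum_const, nsmul_eq_mul]
  congr 1
  have : W.filter (fun v => p.1 ≠ v ∧ p.2 ≠ v) = (W.erase p.1).erase p.2 := by
    ext v
    simp only [mem_filter, mem_erase]
    tauto
  have h4 : p.2 ∈ W.erase p.1 := mem_erase.2 ⟨h3.symm, h2⟩
  have h5 := card_erase_add_one h4
  have h6 := card_erase_add_one h1
  rw [this, ← h6, ← h5]
  push_cast
  ring

end Pool.Agent.H830Z.ER
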