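import Pool.Agent.H830Z.ER.Col

/-!
Zykov symmetrisation: some extremal graph is complete multipartite.
-/

set_option autoImplicit false

namespace Pool.Agent.H830Z.ER

open SimpleGraph Finset

theorem fibre_amgm {α β : Type} [DecidableEq β] (X Y : Finset α) (ρ : α → β) :
    2 * ((X ×ˢ Y).filter fun p => ρ p.1 = ρ p.2).card ≤
      ((X ×ˢ X).filter fun p => ρ p.1 = ρ p.2).card +
      ((Y ×ˢ Y).filter fun p => ρ p.1 = ρ p.2).card := by
  classical
  have key : ∀ A B : Finset α, A ⊆ X ∪ Y → ((A ×ˢ B).filter fun p => ρ p.1 = ρ p.2).card =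
      ∑ b ∈ (X ∪ Y).image ρ, (A.filter fun a => ρ a = b).card * (B.filter fun a => ρ a = b).card := by
    intro A B hA
    rw [card_eq_sum_card_fiberwise (f := fun p : α × α => ρ p.1) (t := (X ∪ Y).image ρ)]
    · refine sum_congr rfl fun b _ => ?_
      rw [← card_product]
      congr 1
      ext p
      simp only [mem_filter, mem_product]
      constructor
      · rintro ⟨⟨⟨h1, h2⟩, h3⟩, h4⟩
        exact ⟨⟨h1, h4⟩, h2, h3 ▸ h4⟩
      · rintro ⟨⟨h1, h4⟩, h2, h3⟩
        exact ⟨⟨⟨h1, h2⟩, h4.trans h3.symm⟩, h4⟩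
    · intro p hp
      exact mem_coe.2 (mem_image_of_mem _ (hA (mem_product.1 (mem_filter.1 (mem_coe.1 hp)).1).1))
  rw [key X Y subset_union_left, key X X subset_union_left, key Y Y subset_union_right,
    mul_sum, ← sum_add_distrib]
  refine sum_le_sum fun b _ => ?_
  nlinarith [sq_nonneg (((X.filter fun a => ρ a = b).card : ℤ) - (Y.filter fun a => ρ a = b).card)]

variable {V : Type} [Fintype V] [DecidableEq V] {r : ℕ} [NeZero r]

/-- send `v` to `u` -/
def sg (u v : V) (x : V) : V := if x = v then u else x

/-- replace `v` by a clone of `u` -/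
def clone (G : SimpleGraph V) (u v : V) : SimpleGraph V := G.comap (sg u v)

/-- forget the colours at `u` and `v` -/
def base (u v : V) (F : V → V → Fin r) : V → V → Fin r := fun x y =>
  if x = u ∨ x = v ∨ y = u ∨ y = v then 0 else F x y

open Classical in
/-- colourings of the clone graph in which `v` copies `u` -/
noncomputable def diagC (r : ℕ) [NeZero r] (G : SimpleGraph V) (u v : V) :
    Finset (V → V → Fin r) :=
  (Col r (clone G u v)).filter fun F => ∀ x y, F x y = F (sg u v x) (sg u v y)

omit [Fintype V] in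
theorem sg_sg {u v : V} (x : V) : sg u v (sg u v x) = sg u v x := by
  unfold sg
  split_ifs with h1 h2 <;> simp_all

theorem copy_mem {G : SimpleGraph V} (u v : V) {F : V → V → Fin r} (hF : F ∈ Col r G) :
    (fun x y => F (sg u v x) (sg u v y)) ∈ diagC r G u v := by
  classical
  obtain ⟨⟨h1, h2⟩, h3⟩ := mem_Col.1 hF
  refine mem_filter.2 ⟨mem_Col.2 ⟨⟨fun x y => h1 _ _, fun x y h => h2 _ _ h⟩, ?_⟩, ?_⟩
  · rintro ⟨x, y, z, w, h⟩
    exact h3 ⟨_, _, _, _, h⟩
  · intro x y
    simp only [sg_sg]

theorem glue_le (G : SimpleGraph V) {u v : V} (huv : u ≠ v) :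
    ((diagC r G u v ×ˢ diagC r G u v).filter fun p => base u v p.1 = base u v p.2).card ≤
      (Col r (clone G u v)).card := by
  classical
  let gl : (V → V → Fin r) × (V → V → Fin r) → V → V → Fin r := fun p x y =>
    if x = v ∨ y = v then p.2 x y else p.1 x y
  have hb : ∀ F F' : V → V → Fin r, base u v F = base u v F' → ∀ x y, x ≠ u → x ≠ v → y ≠ u →
      y ≠ v → F x y = F' x y := by
    intro F F' h x y h1 h2 h3 h4
    have := congrFun (congrFun h x) y
    simpa [base, h1, h2, h3, h4] using this
  apply card_le_card_of_injOn gl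
  · rintro ⟨F, F'⟩ hp
    obtain ⟨hp1, hp2⟩ := mem_filter.1 (mem_coe.1 hp)
    obtain ⟨hF, hF'⟩ := mem_product.1 hp1
    obtain ⟨⟨h1, h2⟩, h3⟩ := mem_Col.1 (mem_filter.1 hF).1
    obtain ⟨⟨h1', h2'⟩, h3'⟩ := mem_Col.1 (mem_filter.1 hF').1
    refine mem_coe.2 (mem_Col.2 ⟨⟨fun x y => ?_, fun x y h => ?_⟩, ?_⟩)
    · simp only [gl, or_comm (a := x = v)]
      split_ifs
      · exact h1' _ _
      · exact h1 _ _
    · simp only [gl]
      split_ifs
      · exact h2' _ _ h
      · exact h2 _ _ h
    · rintro ⟨x, y, z, w, hadj, hc⟩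
      have hna : ¬ (clone G u v).Adj u v := by
        simp [clone, sg, huv]
      have hna' : ¬ (clone G u v).Adj v u := fun h => hna h.symm
      by_cases hv : x = v ∨ y = v ∨ z = v ∨ w = v
      · have hu : x ≠ u ∧ y ≠ u ∧ z ≠ u ∧ w ≠ u := by
          obtain ⟨a1, a2, a3, a4, a5, a6⟩ := hadj
          refine ⟨?_, ?_, ?_, ?_⟩ <;> rintro rfl <;> rcases hv with rfl | rfl | rfl | rfl <;>
            first | exact huv rfl | contradiction
        have e : ∀ a b, a ≠ u → b ≠ u → gl (F, F') a b = F' a b := by
          intro a b ha hb'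
          simp only [gl]
          split_ifs with h
          · rfl
          · exact hb F F' hp2 a b ha (fun e => h (Or.inl e)) hb' (fun e => h (Or.inr e))
        rw [e x y hu.1 hu.2.1, e z w hu.2.2.1 hu.2.2.2, e x z hu.1 hu.2.2.1, e x w hu.1 hu.2.2.2,
          e y z hu.2.1 hu.2.2.1, e y w hu.2.1 hu.2.2.2] at hc
        exact h3' ⟨x, y, z, w, hadj, hc⟩
      · push Not at hv
        simp only [gl, hv.1, hv.2.1, hv.2.2.1, hv.2.2.2, or_self, if_false] at hc
        exact h3 ⟨x, y, z, w, hadj, hc⟩
  · rintro ⟨F, F'⟩ hp ⟨H, H'⟩ hq h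
    obtain ⟨hp1, hp2⟩ := mem_filter.1 (mem_coe.1 hp)
    obtain ⟨hF, hF'⟩ := mem_product.1 hp1
    obtain ⟨hq1, hq2⟩ := mem_filter.1 (mem_coe.1 hq)
    obtain ⟨hH, hH'⟩ := mem_product.1 hq1
    have d1 := (mem_filter.1 hF).2
    have d2 := (mem_filter.1 hF').2
    have d3 := (mem_filter.1 hH).2
    have d4 := (mem_filter.1 hH').2
    simp only at d1 d2 d3 d4 hp2 hq2
    have hsv : ∀ x, sg u v x ≠ v := by
      intro x
      unfold sg
      split_ifs with h
      · exact huv
      · exact h
    have e1 : ∀ x y, x ≠ v → y ≠ v → F x y = H x y := by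
      intro x y h1 h2
      have := congrFun (congrFun h x) y
      simpa [gl, h1, h2] using this
    have e2 : ∀ x y, x = v ∨ y = v → F' x y = H' x y := by
      intro x y h1
      have := congrFun (congrFun h x) y
      simpa [gl, h1] using this
    have hsu : sg u v u = sg u v v := by simp [sg]
    apply Prod.ext
    · funext x y
      show F x y = H x y
      rw [d1, d3]
      exact e1 _ _ (hsv x) (hsv y)
    · funext x y
      show F' x y = H' x y
      by_cases h1 : x = v ∨ y = v
      · exact e2 x y h1
      · push Not at h1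
        by_cases h2 : x = u
        · subst h2
          rw [d2, d4, hsu, ← d2, ← d4]
          exact e2 _ _ (Or.inl rfl)
        · by_cases h3 : y = u
          · subst h3
            rw [d2, d4, hsu, ← d2, ← d4]
            exact e2 _ _ (Or.inr rfl)
          · rw [← hb F F' hp2 x y h2 h1.1 h3 h1.2, ← hb H H' hq2 x y h2 h1.1 h3 h1.2]
            exact e1 x y h1.1 h1.2

theorem zykov (G : SimpleGraph V) {u v : V} (huv : u ≠ v) (hna : ¬ G.Adj u v) :
    2 * (Col r G).card ≤ (Col r (clone G u v)).card + (Col r (clone G v u)).card := by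
  classical
  have h1 := fibre_amgm (diagC r G u v) (diagC r G v u) (base u v)
  have h2 := glue_le (r := r) G huv
  have h3 := glue_le (r := r) G huv.symm
  have hb : (base v u : (V → V → Fin r) → _) = base u v := by
    funext F x y
    unfold base
    congr 1
    apply propext
    tauto
  rw [hb] at h3
  have h4 : (Col r G).card ≤
      ((diagC r G u v ×ˢ diagC r G v u).filter fun p => base u v p.1 = base u v p.2).card := by
    apply card_le_card_of_injOn (fun F => ((fun x y => F (sg u v x) (sg u v y)),
      (fun x y => F (sg v u x) (sg v u y))))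
    · intro F hF
      refine mem_coe.2 (mem_filter.2 ⟨mem_product.2 ⟨copy_mem u v hF, copy_mem v u hF⟩, ?_⟩)
      funext x y
      simp only [base]
      split_ifs with h
      · rfl
      · push Not at h
        simp [sg, h.1, h.2.1, h.2.2.1, h.2.2.2]
    · intro F hF F' hF' h
      obtain ⟨⟨_, h2⟩, _⟩ := mem_Col.1 (mem_coe.1 hF)
      obtain ⟨⟨_, h2'⟩, _⟩ := mem_Col.1 (mem_coe.1 hF')
      funext x y
      have e1 := congrFun (congrFun (congrArg Prod.fst h) x) y
      have e2 := congrFun (congrFun (congrArg Prod.snd h) x) y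
      simp only [sg] at e1 e2
      by_cases c1 : x ≠ v ∧ y ≠ v
      · simpa [c1.1, c1.2] using e1
      · by_cases c2 : x ≠ u ∧ y ≠ u
        · simpa [c2.1, c2.2] using e2
        · have : ¬ G.Adj x y := by
            intro hxy
            have := hxy.ne
            rw [not_and_or, not_not, not_not] at c1 c2
            rcases c1 with rfl | rfl <;> rcases c2 with rfl | rfl
            · exact huv rfl
            · exact hna hxy.symm
            · exact hna hxy
            · exact huv rfl
          rw [h2 x y this, h2' x y this]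
  omega

theorem exists_multipartite (r : ℕ) [NeZero r] (V : Type) [Fintype V] [DecidableEq V] :
    ∃ G : SimpleGraph V, (∀ G' : SimpleGraph V, (Col r G').card ≤ (Col r G).card) ∧
      G.IsCompleteMultipartite := by
  classical
  let tw : SimpleGraph V → V → V → Prop := fun G x y => ∀ z, G.Adj x z ↔ G.Adj y z
  let T : SimpleGraph V → ℕ := fun G => (univ.filter fun p : V × V => tw G p.1 p.2).card
  obtain ⟨G0, -, hG0⟩ := exists_max_image (univ : Finset (SimpleGraph V))
    (fun G => (Col r G).card) univ_nonempty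
  obtain ⟨G, hG, hT⟩ := exists_max_image
    ((univ : Finset (SimpleGraph V)).filter fun G => ∀ G' : SimpleGraph V,
      (Col r G').card ≤ (Col r G).card) T ⟨G0, mem_filter.2 ⟨mem_univ _, fun G' => hG0 G' (mem_univ _)⟩⟩
  have hG' := (mem_filter.1 hG).2
  refine ⟨G, hG', ?_⟩
  let cl : V → ℕ := fun u => (univ.filter fun x => tw G x u).card
  have key : ∀ u v, ¬ G.Adj u v → ¬ tw G u v → cl v ≤ cl u → False := by
    intro u v hna hnt hle
    have huv : u ≠ v := by rintro rfl; exact hnt fun z => Iff.rfl
    have h1 := zykov (r := r) G huv hna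
    have h2 := hG' (clone G u v)
    have h3 := hG' (clone G v u)
    have h4 := hT (clone G u v) (mem_filter.2 ⟨mem_univ _, fun G' => (hG' G').trans (by omega)⟩)
    -- count twin pairs
    let A := univ.filter fun p : V × V => tw G p.1 p.2 ∧ p.1 ≠ v ∧ p.2 ≠ v
    let B := fun w => (univ.filter fun x => tw G x w ∧ x ≠ v)
    have c1 : T G ≤ A.card + ((B v).card + (B v).card + 1) := by
      have : (univ.filter fun p : V × V => tw G p.1 p.2) ⊆ A ∪ ((B v).image (fun x => (x, v)) ∪
          (B v).image (fun x => (v, x)) ∪ {(v, v)}) := by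
        rintro ⟨x, y⟩ hp
        have hp' := (mem_filter.1 hp).2
        simp only [A, B, mem_union, mem_filter, mem_univ, true_and, mem_image, Prod.mk.injEq,
          mem_singleton]
        by_cases hx : x = v <;> by_cases hy : y = v
        · exact Or.inr (Or.inr ⟨hx, hy⟩)
        · subst hx
          exact Or.inr (Or.inl (Or.inr ⟨y, ⟨fun z => (hp' z).symm, hy⟩, rfl, rfl⟩))
        · subst hy
          exact Or.inr (Or.inl (Or.inl ⟨x, ⟨hp', hx⟩, rfl, rfl⟩))
        · exact Or.inl ⟨hp', hx, hy⟩
      refine (card_le_card this).trans ((card_union_le _ _).trans (Nat.add_le_add_left ?_ _))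
      refine (card_union_le _ _).trans (Nat.add_le_add ((card_union_le _ _).trans
        (Nat.add_le_add card_image_le card_image_le)) (by simp))
    have c2 : A.card + ((B u).card + (B u).card + 1) ≤ T (clone G u v) := by
      have hsub : A ∪ ((B u).image (fun x => (x, v)) ∪ (B u).image (fun x => (v, x)) ∪ {(v, v)}) ⊆
          (univ.filter fun p : V × V => tw (clone G u v) p.1 p.2) := by
        rintro ⟨x, y⟩ hp
        simp only [A, B, mem_union, mem_filter, mem_univ, true_and, mem_image, Prod.mk.injEq,
          mem_singleton] at hp ⊢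
        have hk : ∀ a b, tw G (sg u v a) (sg u v b) → tw (clone G u v) a b :=
          fun a b h z => h (sg u v z)
        apply hk
        rcases hp with ⟨h, hx, hy⟩ | (⟨a, ⟨h, ha⟩, rfl, rfl⟩ | ⟨a, ⟨h, ha⟩, rfl, rfl⟩) | ⟨rfl, rfl⟩
        · simpa [sg, hx, hy] using h
        · simpa [sg, ha] using h
        · simp only [sg, ha, if_true, if_false]
          exact fun z => (h z).symm
        · exact fun z => Iff.rfl
      refine le_trans (le_of_eq ?_) (card_le_card hsub)
      rw [card_union_of_disjoint, card_union_of_disjoint, card_union_of_disjoint,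
        card_image_of_injective _ (fun a b h => congrArg Prod.fst h),
        card_image_of_injective _ (fun a b h => congrArg Prod.snd h), card_singleton]
      · rw [Finset.disjoint_left]
        rintro ⟨x, y⟩ h1 h2
        simp only [B, mem_filter, mem_univ, true_and, mem_image, Prod.mk.injEq] at h1 h2
        obtain ⟨a, ⟨_, ha⟩, rfl, rfl⟩ := h1
        obtain ⟨b, _, rfl, _⟩ := h2
        exact ha rfl
      · rw [disjoint_right]
        rintro ⟨x, y⟩ h1 h2
        simp only [B, mem_filter, mem_univ, true_and, mem_image, Prod.mk.injEq, mem_union,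
          mem_singleton] at h1 h2
        obtain ⟨rfl, rfl⟩ := h1
        rcases h2 with ⟨a, ⟨_, ha⟩, h, _⟩ | ⟨a, ⟨_, ha⟩, _, h⟩ <;> exact ha h
      · rw [Finset.disjoint_left]
        rintro ⟨x, y⟩ h1 h2
        simp only [A, B, mem_filter, mem_univ, true_and, mem_image, Prod.mk.injEq, mem_union,
          mem_singleton] at h1 h2
        rcases h2 with (⟨a, _, _, h⟩ | ⟨a, _, h, _⟩) | ⟨h, _⟩
        · exact h1.2.2 h.symm
        · exact h1.2.1 h.symm
        · exact h1.2.1 h
    have c3 : (B u).card = cl u := by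
      apply congrArg card
      ext x
      simp only [B, mem_filter, mem_univ, true_and, and_iff_left_iff_imp]
      rintro h rfl
      exact hnt fun z => (h z).symm
    have c4 : (B v).card < cl v := by
      apply card_lt_card
      refine ⟨fun x hx => mem_filter.2 ⟨mem_univ _, (mem_filter.1 hx).2.1⟩, fun h => ?_⟩
      exact (mem_filter.1 (h (mem_filter.2 ⟨mem_univ v, fun z => Iff.rfl⟩))).2.2 rfl
    omega
  constructor
  intro a b c hab hbc hac
  have hnt : ¬ tw G a b := fun h => hbc ((h c).1 hac)
  rcases le_total (cl b) (cl a) with h | h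
  · exact key a b hab hnt h
  · exact key b a (fun h' => hab h'.symm) (fun h' => hnt fun z => (h' z).symm) h

end Pool.Agent.H830Z.ER
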