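import Pool.Agent.H830Z.ER.Upper
import Pool.Agent.H830Z.ER.Zykov

/-!
Lower bounds and the main theorem.
-/

set_option autoImplicit false

namespace Pool.Agent.H830Z.ER

open Finset SimpleGraph

theorem exists_label {s : ℕ} (N : Fin s → ℕ) {n : ℕ} (h : ∑ i, N i = n) :
    ∃ π : Fin n → Fin s, ∀ i, (univ.filter fun x => π x = i).card = N i := by
  let e : (Σ i, Fin (N i)) ≃ Fin n := Fintype.equivFinOfCardEq (by simpa using h)
  refine ⟨fun x => (e.symm x).1, fun i => ?_⟩
  have e1 : (univ.filter fun x => (e.symm x).1 = i).card =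
      (univ.filter fun z : (Σ i, Fin (N i)) => z.1 = i).card :=
    card_equiv e.symm (by simp)
  rw [e1, card_filter, Fintype.sum_sigma, sum_eq_single i]
  · simp
  · intro j _ hj
    simp [hj]
  · simp

theorem sum_label {V : Type} [Fintype V] {s : ℕ} (π : V → Fin s) (ψ : Fin s → ℝ) :
    ∑ x, ψ (π x) = ∑ i, ((univ.filter fun x => π x = i).card : ℝ) * ψ i := by
  rw [← sum_fiberwise_of_maps_to (g := π) (t := univ) (fun _ _ => mem_univ _)]
  refine sum_congr rfl fun i _ => ?_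
  rw [sum_congr rfl (g := fun _ => ψ i) fun x hx => by rw [(mem_filter.1 hx).2], sum_const,
    nsmul_eq_mul]

theorem sum_label2 {V : Type} [Fintype V] {s : ℕ} (π : V → Fin s) (ψ : Fin s → Fin s → ℝ) :
    ∑ x, ∑ y, ψ (π x) (π y) = ∑ i, ∑ j, ((univ.filter fun x => π x = i).card : ℝ) *
      (((univ.filter fun x => π x = j).card : ℝ) * ψ i j) := by
  rw [sum_label π (fun i => ∑ y, ψ i (π y))]
  refine sum_congr rfl fun i _ => ?_
  rw [sum_label π (ψ i), mul_sum]

theorem lower {n r s : ℕ} [NeZero r] (N a : Fin s → ℕ) (hN : ∑ i, N i = n) (ha : ∑ i, a i = r)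
    (l : Fin s → Fin s → ℝ) (hl : ∀ i j, l i j = l j i)
    (hl1 : ∀ i j, i ≠ j → Real.exp (l i j) ≤ a i + a j) :
    ∃ G : SimpleGraph (Fin n), Real.exp ((∑ i, ∑ j, (N i : ℝ) * ((N j : ℝ) *
      if i ≠ j then l i j else 0)) / 2) ≤ (Col r G).card := by
  classical
  obtain ⟨π, hπ⟩ := exists_label N hN
  obtain ⟨o, ho⟩ := exists_label a ha
  let G : SimpleGraph (Fin n) := (⊤ : SimpleGraph (Fin s)).comap π
  have hG : ∀ x y, G.Adj x y ↔ π x ≠ π y := fun x y => Iff.rfl
  refine ⟨G, ?_⟩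
  let L : Fin n → Fin n → Finset (Fin r) := fun x y => univ.filter fun c => o c = π x ∨ o c = π y
  have h1 := count_lower G L (fun x y => by simp only [L, or_comm]) (by
    rintro F hF ⟨x, y, z, w, ⟨a1, a2, a3, a4, a5, a6⟩, h, -⟩
    have k1 := (mem_filter.1 (hF x y a1)).2
    have k2 := (mem_filter.1 (hF z w a2)).2
    rw [← h] at k2
    rw [hG] at a3 a4 a5 a6
    rcases k1 with k1 | k1 <;> rcases k2 with k2 | k2
    · exact a3 (k1.symm.trans k2)
    · exact a4 (k1.symm.trans k2)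
    · exact a5 (k1.symm.trans k2)
    · exact a6 (k1.symm.trans k2))
  have h2 : ∏ p ∈ Dg G, Real.exp (l (π p.1) (π p.2)) ≤ ∏ p ∈ Dg G, ((L p.1 p.2).card : ℝ) := by
    refine prod_le_prod (fun _ _ => (Real.exp_pos _).le) fun p hp => ?_
    have hne := (hG _ _).1 (mem_Dg.1 hp).2
    refine (hl1 _ _ hne).trans (le_of_eq ?_)
    simp only [L]
    rw [filter_or, card_union_of_disjoint, ho, ho, Nat.cast_add]
    rw [Finset.disjoint_left]
    intro c h1 h2
    exact hne ((mem_filter.1 h1).2.symm.trans (mem_filter.1 h2).2)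
  rw [← Real.exp_sum, ← Nat.cast_prod] at h2
  have h3 := sum_Dg G (fun x y => l (π x) (π y)) fun x y => hl _ _
  have h4 := sum_label2 π fun i j => if i ≠ j then l i j else 0
  simp only [hπ] at h4
  have h5 : 2 * ∑ p ∈ Dg G, l (π p.1) (π p.2) =
      ∑ x, ∑ y, if π x ≠ π y then l (π x) (π y) else 0 := by
    rw [h3]
    refine sum_congr rfl fun x _ => sum_congr rfl fun y _ => ?_
    by_cases h : π x = π y <;> simp [hG, h]
  refine le_trans (le_of_eq ?_) (h2.trans (by exact_mod_cast h1))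
  congr 1
  linarith

theorem turan_upper (n r : ℕ) [NeZero r] :
    ((Col r (turanGraph n 3)).card : ℝ) ≤ Real.exp ((n : ℝ) ^ 2 / 3 * Real.log r) := by
  classical
  have hr : (1 : ℝ) ≤ r := by exact_mod_cast NeZero.one_le
  have h1 := count_upper (turanGraph n 3) (Col r (turanGraph n 3)) (filter_subset _ _)
    (fun _ _ => 1) (fun _ _ => zero_le_one)
  simp only [prod_const_one, sum_const, nsmul_eq_mul, mul_one, card_univ, Fintype.card_fin,
    prod_const] at h1
  refine h1.trans ?_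
  rw [← Real.exp_log (show (0 : ℝ) < r by linarith), ← Real.exp_nat_mul, Real.log_exp,
    Real.exp_le_exp]
  refine mul_le_mul_of_nonneg_right ?_ (Real.log_nonneg hr)
  let π : Fin n → Fin 3 := fun x => ⟨x.1 % 3, Nat.mod_lt _ (by norm_num)⟩
  have h3 := sum_Dg (turanGraph n 3) (fun _ _ => 1) fun x y => rfl
  have h4 := sum_label2 π fun i j => if i ≠ j then 1 else 0
  have h5 : ∑ x, ∑ y, (if (turanGraph n 3).Adj x y then (1 : ℝ) else 0) =
      ∑ x, ∑ y, if π x ≠ π y then 1 else 0 := by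
    simp only [turanGraph_adj, π, ne_eq, Fin.mk.injEq]
  have h6 := sum_label π fun _ => 1
  simp only [sum_const, card_univ, Fintype.card_fin, nsmul_eq_mul, mul_one] at h3 h6
  simp only [Fin.sum_univ_three] at h4 h6
  generalize ((univ.filter fun x => π x = 0).card : ℝ) = a at *
  generalize ((univ.filter fun x => π x = 1).card : ℝ) = b at *
  generalize ((univ.filter fun x => π x = 2).card : ℝ) = c at *
  have h7 : ∑ x, ∑ y, (if π x ≠ π y then (1 : ℝ) else 0) = 2 * (a * b + a * c + b * c) := by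
    rw [h4]
    simp
    ring
  have h8 : 2 * ((Dg (turanGraph n 3)).card : ℝ) = 2 * (a * b + a * c + b * c) := by
    rw [h3, ← h7, ← h5]
    convert rfl
  rw [h6]
  nlinarith [sq_nonneg (a - b), sq_nonneg (a - c), sq_nonneg (b - c)]

theorem turan_not_extremal {r n : ℕ} (hr : 393216 ≤ r) (hn : 400 ≤ n) :
    ¬ Extremal r P4 (turanGraph n 3) := by
  haveI : NeZero r := ⟨by omega⟩
  intro h
  obtain ⟨q, hq⟩ : ∃ q, q = n / 4 := ⟨_, rfl⟩
  obtain ⟨p, hp⟩ : ∃ p, p = r / 4 := ⟨_, rfl⟩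
  have hp0 : (98304 : ℝ) ≤ p := by exact_mod_cast (show 98304 ≤ p by omega)
  have hq0 : (100 : ℝ) ≤ q := by exact_mod_cast (show 100 ≤ q by omega)
  have hp1 : (r : ℝ) ≤ 4 * p + 3 := by exact_mod_cast (show r ≤ 4 * p + 3 by omega)
  have hq1 : (n : ℝ) ≤ 4 * q + 3 := by exact_mod_cast (show n ≤ 4 * q + 3 by omega)
  have ha : ∀ i : Fin 4, p ≤ (![p, p, p, r - 3 * p] : Fin 4 → ℕ) i := by
    intro i; fin_cases i <;> simp; omega
  have hN : ∀ i : Fin 4, q ≤ (![q, q, q, n - 3 * q] : Fin 4 → ℕ) i := by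
    intro i; fin_cases i <;> simp; omega
  obtain ⟨G, hG⟩ := lower (n := n) (r := r) ![q, q, q, n - 3 * q] ![p, p, p, r - 3 * p]
    (by simp [Fin.sum_univ_four]; omega) (by simp [Fin.sum_univ_four]; omega)
    (fun _ _ => Real.log (2 * p)) (fun _ _ => rfl) (fun i j _ => by
      rw [Real.exp_log (by linarith), two_mul]
      exact add_le_add (by exact_mod_cast ha i) (by exact_mod_cast ha j))
  have h1 := h G
  rw [numFree_eq, numFree_eq] at h1
  have h2 := (hG.trans (by exact_mod_cast h1)).trans (turan_upper n r)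
  rw [Real.exp_le_exp] at h2
  have l1 : 17 * Real.log 2 ≤ Real.log (2 * p) := by
    have := Real.log_le_log (by norm_num : (0 : ℝ) < 2 ^ 17) (show (2 : ℝ) ^ 17 ≤ 2 * p by linarith)
    rwa [Real.log_pow] at this
  have l2 := Real.log_two_gt_d9
  have l3 : Real.log r ≤ Real.log (2 * p) + 1.01 := by
    have hr0 : (0 : ℝ) < r := by exact_mod_cast (show 0 < r by omega)
    have := Real.log_le_sub_one_of_pos (x := r / (2 * p)) (by positivity)
    rw [Real.log_div hr0.ne' (by positivity)] at this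
    have e : (r : ℝ) / (2 * p) ≤ 2.01 := by rw [div_le_iff₀ (by positivity)]; linarith
    linarith
  have h3 : ∑ i : Fin 4, ∑ j : Fin 4, (q : ℝ) * ((q : ℝ) * if i ≠ j then Real.log (2 * p) else 0) ≤
      ∑ i, ∑ j, ((![q, q, q, n - 3 * q] : Fin 4 → ℕ) i : ℝ) *
        (((![q, q, q, n - 3 * q] : Fin 4 → ℕ) j : ℝ) * if i ≠ j then Real.log (2 * p) else 0) := by
    refine sum_le_sum fun i _ => sum_le_sum fun j _ => ?_
    have : 0 ≤ if i ≠ j then Real.log (2 * p) else 0 := by split_ifs <;> linarith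
    exact mul_le_mul (by exact_mod_cast hN i)
      (mul_le_mul_of_nonneg_right (by exact_mod_cast hN j) this) (by positivity) (by positivity)
  have h4 : ∑ i : Fin 4, ∑ j : Fin 4, (q : ℝ) * ((q : ℝ) * if i ≠ j then Real.log (2 * p) else 0) =
      12 * (q : ℝ) ^ 2 * Real.log (2 * p) := by
    simp [Fin.sum_univ_four]
    ring
  have h5 : (n : ℝ) ^ 2 ≤ 16.25 * (q : ℝ) ^ 2 := by
    have : (0 : ℝ) ≤ n := by positivity
    nlinarith
  have h6 : (n : ℝ) ^ 2 / 3 * Real.log r ≤ 16.25 * (q : ℝ) ^ 2 / 3 * (Real.log (2 * p) + 1.01) :=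
    mul_le_mul (by linarith) l3 (Real.log_natCast_nonneg _) (by positivity)
  have h7 : (0 : ℝ) < (q : ℝ) ^ 2 := by positivity
  nlinarith

theorem rOne_lt : rOne P4 < 393217 :=
  Nat.lt_succ_of_le (Nat.sInf_le fun _ hr _ => ⟨400, fun _ hn => turan_not_extremal hr hn⟩)

theorem unbalanced (q j : ℕ) : ∃ G : SimpleGraph (Fin (j * (12 * q + 1))),
    Real.exp ((22 * q * (q + 1) * Real.log 65537 + 110 * q ^ 2 * Real.log 65536) * j ^ 2 / 2) ≤
      (Col 393217 G).card := by
  obtain ⟨G, hG⟩ := lower (n := j * (12 * q + 1)) (r := 393217) (s := 12)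
    (fun i => if i = 0 then j * (q + 1) else j * q) (fun i => if i = 0 then 32769 else 32768)
    (by simp [Fin.sum_univ_succ]; ring) (by simp [Fin.sum_univ_succ])
    (fun i j => if i = 0 ∨ j = 0 then Real.log 65537 else Real.log 65536)
    (fun i j => by simp only [or_comm]) (fun i j hij => by
      by_cases h1 : i = 0 <;> by_cases h2 : j = 0
      · exact absurd (h1.trans h2.symm) hij
      · simp only [h1, h2, true_or, if_true, if_false]
        rw [Real.exp_log (by norm_num)]; norm_num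
      · simp only [h1, h2, or_true, if_true, if_false]
        rw [Real.exp_log (by norm_num)]; norm_num
      · simp only [h1, h2, or_self, if_false]
        rw [Real.exp_log (by norm_num)]; norm_num)
  refine ⟨G, le_trans (le_of_eq ?_) hG⟩
  congr 2
  generalize Real.log 65537 = w1
  generalize Real.log 65536 = w0
  simp [Fin.sum_univ_succ]
  ring

theorem main (N : ℕ) : ∃ n, N ≤ n ∧
    (∃ G : SimpleGraph (Fin n), Extremal 393217 P4 G ∧ G.IsCompleteMultipartite ∧ ¬ Equitable G) ∧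
    ∀ G : SimpleGraph (Fin n), G.IsCompleteMultipartite → Equitable G → ¬ Extremal 393217 P4 G := by
  have hΔ : 0 < Real.log 65537 - Real.log 65536 := sub_pos.2 log_65537
  obtain ⟨q, hq⟩ := exists_nat_ge ((V0 + 1) / (110 / 6 * (Real.log 65537 - Real.log 65536)))
  rw [div_le_iff₀ (by positivity)] at hq
  obtain ⟨n₀, hn₀⟩ := upper (η := 1 / (10 * (12 * (q : ℝ) + 1) ^ 2)) (by positivity)
  obtain ⟨j, hj⟩ : ∃ j, j = N + n₀ + 1 := ⟨_, rfl⟩
  have hle : j ≤ j * (12 * q + 1) := Nat.le_mul_of_pos_right _ (by omega)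
  have key : ∀ G : SimpleGraph (Fin (j * (12 * q + 1))), G.IsCompleteMultipartite → Equitable G →
      ¬ Extremal 393217 P4 G := by
    intro G h1 h2 h3
    obtain ⟨G', hG'⟩ := unbalanced q j
    have h4 := h3 G'
    rw [numFree_eq, numFree_eq] at h4
    have h5 := (hG'.trans (Nat.cast_le.2 h4)).trans (hn₀ _ (by omega) G h1 h2)
    rw [Real.exp_le_exp] at h5
    have hj0 : (0 : ℝ) < (j : ℝ) ^ 2 := by
      have : (0 : ℝ) < j := by exact_mod_cast (show 0 < j by omega)
      positivity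
    have e : (V0 + 5 * (1 / (10 * (12 * (q : ℝ) + 1) ^ 2))) * ((j * (12 * q + 1) : ℕ) : ℝ) ^ 2 =
        (V0 * (12 * (q : ℝ) + 1) ^ 2 + 1 / 2) * (j : ℝ) ^ 2 := by
      push_cast
      field_simp
      ring
    rw [e] at h5
    have h6 : 22 * (q : ℝ) * (q + 1) * Real.log 65537 + 110 * q ^ 2 * Real.log 65536 ≤
        V0 * (12 * (q : ℝ) + 1) ^ 2 + 1 / 2 := by
      apply le_of_mul_le_mul_right _ hj0
      linarith
    unfold V0 at h6 hq
    nlinarith
  refine ⟨j * (12 * q + 1), by omega, ?_, key⟩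
  obtain ⟨G, h1, h2⟩ := exists_multipartite 393217 (Fin (j * (12 * q + 1)))
  have h3 : Extremal 393217 P4 G := fun G' => by
    rw [numFree_eq, numFree_eq]
    exact h1 G'
  exact ⟨G, h3, h2, fun h => key G h2 h h3⟩

theorem P4_ne_bot : P4 ≠ ⊥ := by
  intro h
  have h1 : P4 ⟨s(0, 1), by decide⟩ ⟨s(2, 3), by decide⟩ := Or.inr ⟨Or.inl rfl, Or.inr rfl⟩
  rw [h] at h1
  have h2 : (s(0, 1) : Sym2 (Fin 4)) = s(2, 3) := congrArg Subtype.val h1
  exact absurd h2 (by decide)

theorem P4_ne_top : P4 ≠ ⊤ := by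
  intro h
  have h1 : P4 ⟨s(0, 1), by decide⟩ ⟨s(0, 2), by decide⟩ := by rw [h]; trivial
  rcases h1 with h1 | h1
  · have h2 : (s(0, 1) : Sym2 (Fin 4)) = s(0, 2) := congrArg Subtype.val h1
    exact absurd h2 (by decide)
  · exact absurd h1.2 (by decide)

end Pool.Agent.H830Z.ER
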