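import Pool.Agent.H830Z.ER.Loc

/-!
The local bounds for `r = 393217 = 12 * 32768 + 1` colours.
-/

set_option autoImplicit false

namespace Pool.Agent.H830Z.ER

open Finset

/-- the value of the balanced twelve-part construction -/
noncomputable def V0 : ℝ := (22 * Real.log 65537 + 110 * Real.log 65536) / 144

theorem log_65536 : Real.log 65536 = 16 * Real.log 2 := by
  rw [show (65536 : ℝ) = 2 ^ 16 by norm_num, Real.log_pow]; norm_num

theorem log_4 : Real.log 4 = 2 * Real.log 2 := by
  rw [show (4 : ℝ) = 2 ^ 2 by norm_num, Real.log_pow]; norm_num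

theorem log_65537 : Real.log 65536 < Real.log 65537 := Real.log_lt_log (by norm_num) (by norm_num)

theorem V0_ge : 44 / 3 * Real.log 2 ≤ V0 := by
  unfold V0
  have := log_65537
  rw [log_65536] at this ⊢
  linarith

theorem log_le_of_pow {x : ℝ} (hx : 0 < x) (a b : ℕ) (h : x ^ a ≤ 2 ^ b) :
    a * Real.log x ≤ b * Real.log 2 := by
  have := Real.log_le_log (pow_pos hx a) h
  rwa [Real.log_pow, Real.log_pow] at this

variable {ι : Type} [DecidableEq ι] {L : ι → ι → Finset (Fin 393217)}

theorem Tm.mid (h : Tm L) {W : Finset ι} (h1 : 4 ≤ W.card) (h2 : W.card ≤ 13) :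
    SL L W ≤ W.card * (W.card - 1) * Real.log (786434 / W.card) - cnt (SS L) W := by
  have ht1 : (4 : ℝ) ≤ W.card := by exact_mod_cast h1
  have ht2 : (W.card : ℝ) ≤ 13 := by exact_mod_cast h2
  have e := h.tangent h1 (τ := 786434 / W.card) (by positivity)
  rw [Fintype.card_fin] at e
  generalize (W.card : ℝ) = t at *
  have e1 : 15 * Real.log 2 ≤ Real.log (786434 / t) := by
    have : Real.log (2 ^ 15) ≤ Real.log (786434 / t) := by
      apply Real.log_le_log (by norm_num)
      rw [le_div_iff₀ (by linarith)]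
      nlinarith
    rwa [Real.log_pow] at this
  have e2 : 2 * ((393217 : ℕ) : ℝ) * (t - 1) / (786434 / t) = t * (t - 1) := by
    push_cast
    field_simp
    ring
  have e3 : (((393217 : ℕ) : ℝ) + t ^ 2) / (786434 / t) ≤ 7 := by
    rw [div_le_iff₀ (by positivity), mul_div_assoc', le_div_iff₀ (by linarith)]
    push_cast
    nlinarith [mul_le_mul ht2 ht2 (by linarith) (by norm_num : (0 : ℝ) ≤ 13)]
  have e4 := Real.log_two_gt_d9
  have e5 : (1 : ℝ) ≤ Real.log (786434 / t) - 1 - Real.log 4 -
      (((393217 : ℕ) : ℝ) + t ^ 2) / (786434 / t) := by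
    rw [log_4]
    linarith
  have e6 : (0 : ℝ) ≤ cnt (SS L) W := by positivity
  rw [e2] at e
  nlinarith [mul_le_mul_of_nonneg_left e5 e6]

set_option exponentiation.threshold 1000 in
theorem Tm.big (h : Tm L) {W : Finset ι} (h1 : 4 ≤ W.card) (h2 : W.card ≤ 48) :
    SL L W ≤ W.card * (W.card - 1) * (15.585 * Real.log 2 - 1) + 16.0001 * (W.card - 1) := by
  have ht1 : (4 : ℝ) ≤ W.card := by exact_mod_cast h1
  have ht2 : (W.card : ℝ) ≤ 48 := by exact_mod_cast h2
  have e := h.tangent h1 (τ := 49152) (by norm_num)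
  rw [Fintype.card_fin] at e
  generalize (W.card : ℝ) = t at *
  have l1 : Real.log 49152 = 14 * Real.log 2 + Real.log 3 := by
    rw [show (49152 : ℝ) = 2 ^ 14 * 3 by norm_num, Real.log_mul (by norm_num) (by norm_num),
      Real.log_pow]
    norm_num
  have l2 := log_le_of_pow (x := 3) (by norm_num) 200 317 (by norm_num)
  have l3 : 3 * Real.log 2 ≤ 2 * Real.log 3 := by
    have := Real.log_le_log (by norm_num : (0 : ℝ) < 2 ^ 3) (by norm_num : (2 : ℝ) ^ 3 ≤ 3 ^ 2)
    rw [Real.log_pow, Real.log_pow] at this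
    exact_mod_cast this
  have e4 := Real.log_two_gt_d9
  push_cast at e l2
  have e5 : (0 : ℝ) ≤ Real.log 49152 - 1 - Real.log 4 - (393217 + t ^ 2) / 49152 := by
    rw [log_4, l1]
    nlinarith [mul_le_mul ht2 ht2 (by linarith) (by norm_num : (0 : ℝ) ≤ 48)]
  have e6 : (0 : ℝ) ≤ cnt (SS L) W := by positivity
  have e7 : Real.log 49152 ≤ 15.585 * Real.log 2 := by rw [l1]; linarith
  have e8 : 0 ≤ t * (t - 1) := by nlinarith
  nlinarith [mul_le_mul_of_nonneg_left e7 e8, mul_nonneg e6 e5]

theorem Tm.locB (h : Tm L) : ∀ (k : ℕ) (W : Finset ι), W.card = 48 + k →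
    SL L W ≤ V0 * (W.card * (W.card - 1)) := by
  intro k
  induction k with
  | zero =>
    intro W hW
    have e := h.big (W := W) (by omega) (by omega)
    rw [hW] at e ⊢
    have e1 := V0_ge
    have e4 := Real.log_two_lt_d9
    push_cast at e ⊢
    linarith
  | succ k ih =>
    intro W hW
    have e1 := SL_erase L W
    have e2 : ∑ v ∈ W, SL L (W.erase v) ≤ W.card • (V0 * ((48 + k) * (48 + k - 1))) := by
      refine sum_le_card_nsmul _ _ _ fun v hv => ?_
      have hc : (W.erase v).card = 48 + k := by rw [card_erase_of_mem hv, hW]; rfl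
      have := ih _ hc
      rw [hc] at this
      push_cast at this
      exact this
    rw [e1, nsmul_eq_mul, hW] at e2
    rw [hW]
    push_cast at e2 ⊢
    have hk : (0 : ℝ) ≤ k := by positivity
    apply le_of_mul_le_mul_left _ (show (0 : ℝ) < 48 + (k + 1) - 2 by linarith)
    refine e2.trans (le_of_eq ?_)
    ring

set_option exponentiation.threshold 1000 in
theorem Tm.locA (h : Tm L) (W : Finset ι) : SL L W ≤ V0 * (W.card : ℝ) ^ 2 := by
  have e1 := V0_ge
  have e4 := Real.log_two_gt_d9
  have e5 := Real.log_two_lt_d9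
  by_cases c1 : W.card ≤ 4
  · have e := SL_trivial h W
    rw [Fintype.card_fin] at e
    have l1 := log_le_of_pow (x := ((393217 : ℕ) : ℝ)) (by norm_num) 1 19 (by norm_num)
    generalize Real.log ((393217 : ℕ) : ℝ) = l at e l1
    generalize W.card = t at *
    interval_cases t <;> push_cast at e l1 ⊢ <;> linarith
  by_cases c2 : W.card = 12
  · by_cases hb : cnt (SS L) W = 0
    · have e := h.chord (by omega) hb (A := 65536) (by norm_num)
      rw [Fintype.card_fin, c2] at e
      rw [c2]
      unfold V0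
      norm_num at e ⊢
      linarith
    · have e := h.mid (W := W) (by omega) (by omega)
      have hb' : (1 : ℝ) ≤ cnt (SS L) W := by exact_mod_cast Nat.one_le_iff_ne_zero.2 hb
      rw [c2] at e ⊢
      have l1 := Real.log_le_sub_one_of_pos (x := (786434 / 12 : ℝ) / 65536) (by norm_num)
      rw [Real.log_div (by norm_num) (by norm_num), log_65536] at l1
      push_cast at e ⊢
      linarith
  by_cases c3 : W.card ≤ 13
  · have e := h.mid (W := W) (by omega) c3
    have hb' : (0 : ℝ) ≤ cnt (SS L) W := by positivity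
    have l1 : ∀ t : ℕ, 5 ≤ t → t ≤ 13 → t ≠ 12 →
        ((3 * (t - 1) : ℕ) : ℝ) * Real.log (786434 / t) ≤ ((44 * t : ℕ) : ℝ) * Real.log 2 := by
      intro t h1 h2 h3
      apply log_le_of_pow (by positivity)
      interval_cases t <;> first | exact absurd rfl h3 | norm_num
    have l2 := l1 W.card (by omega) c3 c2
    generalize Real.log (786434 / (W.card : ℝ)) = l at e l2
    generalize W.card = t at *
    interval_cases t <;> push_cast at e l2 ⊢ <;> linarith
  by_cases c4 : W.card ≤ 48
  · have e := h.big (W := W) (by omega) c4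
    have ht1 : (14 : ℝ) ≤ W.card := by exact_mod_cast (show 14 ≤ W.card by omega)
    generalize (W.card : ℝ) = t at *
    have f1 : 0 ≤ t ^ 2 := by positivity
    have f2 : t * (t - 1) * (15.585 * Real.log 2 - 1) ≤ t * (t - 1) * 9.8027 :=
      mul_le_mul_of_nonneg_left (by linarith) (by nlinarith)
    have f3 : 10.1661 * t ^ 2 ≤ V0 * t ^ 2 := mul_le_mul_of_nonneg_right (by linarith) f1
    nlinarith
  · have e := h.locB (W.card - 48) W (by omega)
    have : (0 : ℝ) ≤ W.card := by positivity
    have f : 0 ≤ V0 := by linarith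
    nlinarith [mul_nonneg f this]

end Pool.Agent.H830Z.ER
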