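import Mathlib

/-!
Weak (Frieze–Kannan) regularity for finitely many functions, and a counting lemma for `K_4`.
-/

set_option autoImplicit false

namespace Pool.Agent.H830Z.ER

open Finset

section Av
variable {Ω Λ Λ' : Type} [Fintype Ω] [DecidableEq Λ] [DecidableEq Λ']

/-- average over the fibres of `π` -/
noncomputable def av (π : Ω → Λ) (f : Ω → ℝ) (ω : Ω) : ℝ :=
  (∑ ω' ∈ univ.filter (fun ω' => π ω' = π ω), f ω') / (univ.filter (fun ω' => π ω' = π ω)).card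

theorem av_meas (π : Ω → Λ) (f : Ω → ℝ) {ω ω' : Ω} (h : π ω = π ω') : av π f ω = av π f ω' := by
  unfold av; rw [h]

theorem fib_pos (π : Ω → Λ) (ω : Ω) : (0 : ℝ) < (univ.filter (fun ω' => π ω' = π ω)).card := by
  have : 0 < (univ.filter (fun ω' => π ω' = π ω)).card := card_pos.2 ⟨ω, by simp⟩
  exact_mod_cast this

theorem av_nonneg (π : Ω → Λ) {f : Ω → ℝ} (hf : ∀ ω, 0 ≤ f ω) (ω : Ω) : 0 ≤ av π f ω :=
  div_nonneg (sum_nonneg fun _ _ => hf _) (fib_pos π ω).le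

theorem av_le_one (π : Ω → Λ) {f : Ω → ℝ} (hf : ∀ ω, f ω ≤ 1) (ω : Ω) : av π f ω ≤ 1 := by
  unfold av
  rw [div_le_one (fib_pos π ω)]
  simpa using sum_le_card_nsmul (univ.filter (fun ω' => π ω' = π ω)) f 1 fun x _ => hf x

theorem av_congr {π : Ω → Λ} {π' : Ω → Λ'} (h : ∀ ω ω', π ω = π ω' ↔ π' ω = π' ω') (f : Ω → ℝ) :
    av π f = av π' f := by
  funext ω
  unfold av
  simp only [h]

theorem av_dot (π : Ω → Λ) (f h : Ω → ℝ) (hh : ∀ ω ω', π ω = π ω' → h ω = h ω') :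
    ∑ ω, av π f ω * h ω = ∑ ω, f ω * h ω := by
  have e1 : ∀ ω, av π f ω * h ω = ∑ ω', if π ω' = π ω then
      f ω' * h ω' / (univ.filter (fun ω'' => π ω'' = π ω')).card else 0 := by
    intro ω
    unfold av
    rw [sum_filter, sum_div, sum_mul]
    refine sum_congr rfl fun ω' _ => ?_
    split_ifs with h1
    · rw [h1, hh ω' ω h1]; ring
    · simp
  simp only [e1]
  rw [sum_comm]
  refine sum_congr rfl fun ω' _ => ?_
  simp only [eq_comm (a := π ω')]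
  rw [← sum_filter, sum_const, nsmul_eq_mul]
  have := fib_pos π ω'
  field_simp

theorem av_energy {π : Ω → Λ} {π' : Ω → Λ'} (h : ∀ ω ω', π' ω = π' ω' → π ω = π ω') (f : Ω → ℝ) :
    ∑ ω, av π' f ω ^ 2 = ∑ ω, av π f ω ^ 2 + ∑ ω, (av π' f ω - av π f ω) ^ 2 := by
  have e1 := av_dot π' f (av π f) fun ω ω' e => av_meas π f (h _ _ e)
  have e2 := av_dot π f (av π f) fun ω ω' e => av_meas π f e
  have e3 : ∑ ω, (av π' f ω - av π f ω) ^ 2 =
      ∑ ω, av π' f ω ^ 2 - 2 * ∑ ω, av π' f ω * av π f ω + ∑ ω, av π f ω * av π f ω := by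
    rw [mul_sum, ← sum_sub_distrib, ← sum_add_distrib]
    exact sum_congr rfl fun ω _ => by ring
  have e4 : ∑ ω, av π f ω ^ 2 = ∑ ω, av π f ω * av π f ω := sum_congr rfl fun ω _ => by ring
  rw [e3, e4]
  linarith

end Av

section Reg
variable {V : Type} [Fintype V] [DecidableEq V]

/-- the labelling of pairs -/
def pr {Λ : Type} (π : V → Λ) (p : V × V) : Λ × Λ := (π p.1, π p.2)

/-- indicator of a rectangle -/
noncomputable def rect (S T : Finset V) (p : V × V) : ℝ := if p.1 ∈ S ∧ p.2 ∈ T then 1 else 0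

/-- one-sided weak regularity -/
def IsReg {r : ℕ} {Λ : Type} [DecidableEq Λ] (f : Fin r → V × V → ℝ) (ε : ℝ) (π : V → Λ) : Prop :=
  ∀ c S T, ∑ p, (av (pr π) (f c) p - f c p) * rect S T p ≤ ε * (Fintype.card V : ℝ) ^ 2

theorem reg_step {r : ℕ} (f : Fin r → V × V → ℝ) {ε : ℝ} (hε : 0 ≤ ε) (j : ℕ) :
    ∃ π : V → Fin (4 ^ j), IsReg f ε π ∨
      j * ε ^ 2 * (Fintype.card V : ℝ) ^ 2 ≤ ∑ c, ∑ p, av (pr π) (f c) p ^ 2 := by
  induction j with
  | zero =>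
    refine ⟨fun _ => ⟨0, by norm_num⟩, Or.inr ?_⟩
    simp only [Nat.cast_zero, zero_mul]
    exact sum_nonneg fun _ _ => sum_nonneg fun _ _ => sq_nonneg _
  | succ j ih =>
    obtain ⟨π, hπ⟩ := ih
    let e : Fin (4 ^ j) × Bool × Bool ≃ Fin (4 ^ (j + 1)) :=
      Fintype.equivFinOfCardEq (by simp [pow_succ])
    by_cases hreg : IsReg f ε π
    · refine ⟨fun x => e (π x, false, false), Or.inl ?_⟩
      intro c S T
      rw [← av_congr (π := pr π)]
      · exact hreg c S T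
      · intro p q
        simp [pr]
    · have hE := hπ.resolve_left hreg
      unfold IsReg at hreg
      push Not at hreg
      obtain ⟨c, S, T, h⟩ := hreg
      let π' : V → Fin (4 ^ (j + 1)) := fun x => e (π x, decide (x ∈ S), decide (x ∈ T))
      refine ⟨π', Or.inr ?_⟩
      have href : ∀ p q, pr π' p = pr π' q → pr π p = pr π q := by
        intro p q hpq
        simp only [pr, π', Prod.mk.injEq, EmbeddingLike.apply_eq_iff_eq] at hpq ⊢
        exact ⟨hpq.1.1, hpq.2.1⟩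
      have hrect : ∀ p q, pr π' p = pr π' q → rect S T p = rect S T q := by
        intro p q hpq
        simp only [pr, π', Prod.mk.injEq, EmbeddingLike.apply_eq_iff_eq, decide_eq_decide] at hpq
        unfold rect
        simp only [hpq.1.2.1, hpq.2.2.2]
      have e1 : ∑ p, (av (pr π) (f c) p - f c p) * rect S T p =
          ∑ p, (av (pr π) (f c) p - av (pr π') (f c) p) * rect S T p := by
        simp only [sub_mul, sum_sub_distrib]
        rw [av_dot (pr π') (f c) _ hrect]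
      have e2 := sum_mul_sq_le_sq_mul_sq univ
        (fun p => av (pr π) (f c) p - av (pr π') (f c) p) (rect S T)
      have e3 : ∑ p : V × V, rect S T p ^ 2 ≤ (Fintype.card V : ℝ) ^ 2 := by
        have : ∑ p : V × V, rect S T p ^ 2 ≤ ∑ _p : V × V, (1 : ℝ) :=
          sum_le_sum fun p _ => by unfold rect; split_ifs <;> norm_num
        simpa [sq] using this
      have e4 : ε ^ 2 * (Fintype.card V : ℝ) ^ 2 ≤
          ∑ p, (av (pr π') (f c) p - av (pr π) (f c) p) ^ 2 := by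
        have e5 : ∑ p, (av (pr π') (f c) p - av (pr π) (f c) p) ^ 2 =
            ∑ p, (av (pr π) (f c) p - av (pr π') (f c) p) ^ 2 :=
          sum_congr rfl fun p _ => by ring
        rw [e5]
        rw [← e1] at e2
        have h0 : 0 ≤ ε * (Fintype.card V : ℝ) ^ 2 := by positivity
        have h1 : (ε * (Fintype.card V : ℝ) ^ 2) ^ 2 <
            (∑ p, (av (pr π) (f c) p - f c p) * rect S T p) ^ 2 := by nlinarith
        have h2 : 0 ≤ ∑ p, (av (pr π) (f c) p - av (pr π') (f c) p) ^ 2 :=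
          sum_nonneg fun _ _ => sq_nonneg _
        have h3 := mul_le_mul_of_nonneg_left e3 h2
        by_contra hc
        push Not at hc
        have h4 : 0 ≤ (Fintype.card V : ℝ) ^ 2 := by positivity
        nlinarith [mul_le_mul_of_nonneg_right hc.le h4]
      have e6 : ∑ c, ∑ p, av (pr π') (f c) p ^ 2 = ∑ c, ∑ p, av (pr π) (f c) p ^ 2 +
          ∑ c, ∑ p, (av (pr π') (f c) p - av (pr π) (f c) p) ^ 2 := by
        rw [← sum_add_distrib]
        exact sum_congr rfl fun c _ => av_energy href (f c)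
      have e7 : ∑ p, (av (pr π') (f c) p - av (pr π) (f c) p) ^ 2 ≤
          ∑ c, ∑ p, (av (pr π') (f c) p - av (pr π) (f c) p) ^ 2 :=
        single_le_sum (f := fun c => ∑ p, (av (pr π') (f c) p - av (pr π) (f c) p) ^ 2)
          (fun _ _ => sum_nonneg fun _ _ => sq_nonneg _) (mem_univ c)
      push_cast
      linarith

theorem weak_reg [Nonempty V] {r : ℕ} (f : Fin r → V × V → ℝ) (h0 : ∀ c p, 0 ≤ f c p)
    (h1 : ∀ c p, f c p ≤ 1) {ε : ℝ} (hε : 0 ≤ ε) (J : ℕ) (hJ : r < J * ε ^ 2) :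
    ∃ π : V → Fin (4 ^ J), IsReg f ε π := by
  obtain ⟨π, h | h⟩ := reg_step f hε J
  · exact ⟨π, h⟩
  · exfalso
    have e : ∑ c, ∑ p, av (pr π) (f c) p ^ 2 ≤ ∑ _c : Fin r, ∑ _p : V × V, (1 : ℝ) :=
      sum_le_sum fun c _ => sum_le_sum fun p _ =>
        pow_le_one₀ (av_nonneg _ (h0 c) p) (av_le_one _ (h1 c) p)
    simp only [sum_const, card_univ, Fintype.card_prod, nsmul_eq_mul, mul_one, Fintype.card_fin,
      Nat.cast_mul] at e
    have hn : (0 : ℝ) < Fintype.card V := by exact_mod_cast Fintype.card_pos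
    nlinarith [mul_pos hn hn]

/-- small (one-sided) cut norm -/
def CutLe (D : V → V → ℝ) (B : ℝ) : Prop :=
  ∀ a b : V → ℝ, (∀ x, 0 ≤ a x ∧ a x ≤ 1) → (∀ x, 0 ≤ b x ∧ b x ≤ 1) →
    ∑ x, ∑ y, D x y * a x * b y ≤ B

theorem extreme (φ a : V → ℝ) (ha : ∀ x, 0 ≤ a x ∧ a x ≤ 1) :
    ∑ x, φ x * a x ≤ ∑ x, φ x * if x ∈ univ.filter (fun x => 0 < φ x) then 1 else 0 := by
  refine sum_le_sum fun x _ => ?_
  simp only [mem_filter, mem_univ, true_and]
  split_ifs with h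
  · exact mul_le_mul_of_nonneg_left (ha x).2 h.le
  · nlinarith [(ha x).1, not_lt.1 h]

theorem cutLe_of_rect (D : V → V → ℝ) (B : ℝ)
    (h : ∀ S T, ∑ p : V × V, D p.1 p.2 * rect S T p ≤ B) : CutLe D B := by
  intro a b ha hb
  have e1 : ∑ x, ∑ y, D x y * a x * b y = ∑ x, (∑ y, D x y * b y) * a x := by
    refine sum_congr rfl fun x _ => ?_
    rw [sum_mul]
    exact sum_congr rfl fun y _ => by ring
  rw [e1]
  refine (extreme _ a ha).trans ?_
  generalize univ.filter (fun x => 0 < ∑ y, D x y * b y) = S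
  have e2 : ∑ x, (∑ y, D x y * b y) * (if x ∈ S then (1 : ℝ) else 0) =
      ∑ y, (∑ x, D x y * if x ∈ S then 1 else 0) * b y := by
    simp only [sum_mul]
    rw [sum_comm]
    exact sum_congr rfl fun y _ => sum_congr rfl fun x _ => by ring
  rw [e2]
  refine (extreme _ b hb).trans ?_
  generalize univ.filter (fun y => 0 < ∑ x, D x y * if x ∈ S then 1 else 0) = T
  refine le_trans (le_of_eq ?_) (h S T)
  rw [Fintype.sum_prod_type, sum_comm]
  refine sum_congr rfl fun y _ => ?_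
  rw [sum_mul]
  refine sum_congr rfl fun x _ => ?_
  unfold rect
  by_cases h1 : x ∈ S <;> by_cases h2 : y ∈ T <;> simp [h1, h2]

/-- the `K_4` form -/
noncomputable def T6 (h1 h2 h3 h4 h5 h6 : V → V → ℝ) : ℝ :=
  ∑ q : V × V × V × V, h1 q.1 q.2.1 * h2 q.2.2.1 q.2.2.2 * h3 q.1 q.2.2.1 * h4 q.1 q.2.2.2 *
    h5 q.2.1 q.2.2.1 * h6 q.2.1 q.2.2.2

/-- values in the unit interval -/
def U01 (h : V → V → ℝ) : Prop := ∀ x y, 0 ≤ h x y ∧ h x y ≤ 1

omit [Fintype V] [DecidableEq V] in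
theorem U01.mul {a b : ℝ} (ha : 0 ≤ a ∧ a ≤ 1) (hb : 0 ≤ b ∧ b ≤ 1) : 0 ≤ a * b ∧ a * b ≤ 1 :=
  ⟨mul_nonneg ha.1 hb.1, mul_le_one₀ ha.2 hb.1 hb.2⟩

omit [DecidableEq V] in
theorem T6_step {f g h2 h3 h4 h5 h6 : V → V → ℝ} {B : ℝ} (h : CutLe (fun x y => g x y - f x y) B)
    (u2 : U01 h2) (u3 : U01 h3) (u4 : U01 h4) (u5 : U01 h5) (u6 : U01 h6) :
    T6 g h2 h3 h4 h5 h6 ≤ T6 f h2 h3 h4 h5 h6 + B * (Fintype.card V : ℝ) ^ 2 := by
  have e1 : T6 g h2 h3 h4 h5 h6 - T6 f h2 h3 h4 h5 h6 = ∑ q : V × V, ∑ x, ∑ y,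
      (g x y - f x y) * (h2 q.1 q.2 * h3 x q.1 * h4 x q.2) * (h5 y q.1 * h6 y q.2) := by
    unfold T6
    rw [← sum_sub_distrib, sum_comm, Fintype.sum_prod_type]
    refine sum_congr rfl fun x _ => ?_
    rw [sum_comm, Fintype.sum_prod_type]
    exact sum_congr rfl fun y _ => sum_congr rfl fun q _ => by ring
  have e2 : ∑ q : V × V, ∑ x, ∑ y,
      (g x y - f x y) * (h2 q.1 q.2 * h3 x q.1 * h4 x q.2) * (h5 y q.1 * h6 y q.2) ≤
      ∑ _q : V × V, B := sum_le_sum fun q _ =>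
    h _ _ (fun x => U01.mul (U01.mul (u2 _ _) (u3 _ _)) (u4 _ _))
      (fun y => U01.mul (u5 _ _) (u6 _ _))
  simp only [sum_const, card_univ, Fintype.card_prod, nsmul_eq_mul, Nat.cast_mul] at e2
  nlinarith

/-- symmetric functions -/
def Sy (h : V → V → ℝ) : Prop := ∀ x y, h x y = h y x

omit [DecidableEq V] in
theorem T6_A {h1 h2 h3 h4 h5 h6 : V → V → ℝ} (s3 : Sy h3) (s4 : Sy h4) (s5 : Sy h5) (s6 : Sy h6) :
    T6 h1 h2 h3 h4 h5 h6 = T6 h2 h1 h3 h5 h4 h6 := by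
  unfold T6
  refine Fintype.sum_equiv ⟨fun q => (q.2.2.1, q.2.2.2, q.1, q.2.1),
    fun q => (q.2.2.1, q.2.2.2, q.1, q.2.1), fun _ => rfl, fun _ => rfl⟩ _ _ ?_
  rintro ⟨x, y, z, w⟩
  simp only [Equiv.coe_fn_mk]
  rw [s3 z x, s4 w x, s5 z y, s6 w y]
  ring

omit [DecidableEq V] in
theorem T6_B {h1 h2 h3 h4 h5 h6 : V → V → ℝ} (s5 : Sy h5) :
    T6 h1 h2 h3 h4 h5 h6 = T6 h3 h6 h1 h4 h5 h2 := by
  unfold T6
  refine Fintype.sum_equiv ⟨fun q => (q.1, q.2.2.1, q.2.1, q.2.2.2),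
    fun q => (q.1, q.2.2.1, q.2.1, q.2.2.2), fun _ => rfl, fun _ => rfl⟩ _ _ ?_
  rintro ⟨x, y, z, w⟩
  simp only [Equiv.coe_fn_mk]
  rw [s5 z y]
  ring

omit [DecidableEq V] in
theorem T6_C {h1 h2 h3 h4 h5 h6 : V → V → ℝ} (s2 : Sy h2) (s5 : Sy h5) (s6 : Sy h6) :
    T6 h1 h2 h3 h4 h5 h6 = T6 h4 h5 h3 h1 h2 h6 := by
  unfold T6
  refine Fintype.sum_equiv ⟨fun q => (q.1, q.2.2.2, q.2.2.1, q.2.1),
    fun q => (q.1, q.2.2.2, q.2.2.1, q.2.1), fun _ => rfl, fun _ => rfl⟩ _ _ ?_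
  rintro ⟨x, y, z, w⟩
  simp only [Equiv.coe_fn_mk]
  rw [s2 w z, s5 z y, s6 w y]
  ring

omit [DecidableEq V] in
theorem T6_count {ι : Type} {f g : ι → V → V → ℝ} {B : ℝ}
    (h : ∀ c, CutLe (fun x y => g c x y - f c x y) B) (uf : ∀ c, U01 (f c)) (ug : ∀ c, U01 (g c))
    (sf : ∀ c, Sy (f c)) (sg : ∀ c, Sy (g c)) (c1 c2 c3 c4 c5 c6 : ι) :
    T6 (g c1) (g c2) (g c3) (g c4) (g c5) (g c6) ≤
      T6 (f c1) (f c2) (f c3) (f c4) (f c5) (f c6) + 6 * (B * (Fintype.card V : ℝ) ^ 2) := by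
  have a1 := T6_step (h c1) (ug c2) (ug c3) (ug c4) (ug c5) (ug c6)
  have a2 := T6_step (h c2) (uf c1) (ug c3) (ug c5) (ug c4) (ug c6)
  rw [← T6_A (sg c3) (sg c4) (sg c5) (sg c6), ← T6_A (sg c3) (sg c4) (sg c5) (sg c6)] at a2
  have a3 := T6_step (h c3) (ug c6) (uf c1) (ug c4) (ug c5) (uf c2)
  rw [← T6_B (h3 := g c3) (sg c5), ← T6_B (h3 := f c3) (sg c5)] at a3
  have a4 := T6_step (h c4) (ug c5) (uf c3) (uf c1) (uf c2) (ug c6)
  rw [← T6_C (sf c2) (sg c5) (sg c6), ← T6_C (sf c2) (sg c5) (sg c6)] at a4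
  have a5 := T6_step (h c5) (uf c4) (uf c3) (uf c2) (uf c1) (ug c6)
  rw [← T6_A (sf c3) (sf c1) (sf c2) (sg c6), ← T6_A (sf c3) (sf c1) (sf c2) (sg c6),
    ← T6_C (sf c2) (sg c5) (sg c6), ← T6_C (sf c2) (sf c5) (sg c6)] at a5
  have a6 := T6_step (h c6) (uf c3) (uf c1) (uf c5) (uf c4) (uf c2)
  rw [← T6_A (sf c1) (sf c4) (sf c5) (sf c2), ← T6_A (sf c1) (sf c4) (sf c5) (sf c2),
    ← T6_B (h6 := g c6) (sf c5), ← T6_B (h6 := f c6) (sf c5)] at a6
  linarith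

end Reg

end Pool.Agent.H830Z.ER
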