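import Pool.Agent.H830Z.ER.Glob
import Pool.Agent.H830Z.ER.Reg

/-!
The upper bound for the number of pattern-free colourings of equitable complete multipartite graphs.
-/

set_option autoImplicit false

namespace Pool.Agent.H830Z.ER

open Finset

theorem av_swap {V Λ : Type} [Fintype V] [DecidableEq Λ] (π : V → Λ) (f : V × V → ℝ)
    (hf : ∀ x y, f (x, y) = f (y, x)) (x y : V) : av (pr π) f (x, y) = av (pr π) f (y, x) := by
  unfold av
  have e : ∀ φ : V × V → ℝ, (∀ x y, φ (x, y) = φ (y, x)) →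
      ∑ p ∈ univ.filter (fun p => pr π p = pr π (x, y)), φ p =
      ∑ p ∈ univ.filter (fun p => pr π p = pr π (y, x)), φ p := by
    intro φ hφ
    refine sum_bijective Prod.swap Prod.swap_bijective ?_ ?_
    · rintro ⟨a, b⟩
      simp [pr, and_comm]
    · rintro ⟨a, b⟩ _
      exact hφ a b
  rw [e f hf]
  congr 1
  simpa using e (fun _ => 1) (fun _ _ => rfl)

theorem T6_eq {V : Type} [Fintype V] (h1 h2 h3 h4 h5 h6 : V → V → ℝ) :
    ∑ y : Fin 4 → V, h1 (y 0) (y 1) * h2 (y 2) (y 3) * h3 (y 0) (y 2) * h4 (y 0) (y 3) *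
      h5 (y 1) (y 2) * h6 (y 1) (y 3) = T6 h1 h2 h3 h4 h5 h6 := by
  unfold T6
  refine Fintype.sum_equiv ⟨fun y => (y 0, y 1, y 2, y 3),
    fun q => ![q.1, q.2.1, q.2.2.1, q.2.2.2], fun y => ?_, fun q => rfl⟩ _ _ fun y => ?_
  · funext i
    fin_cases i <;> rfl
  · rfl

open Classical in
/-- edges whose colour is not in their list -/
noncomputable def off {V κ : Type} (G : SimpleGraph V) (L : V → V → Finset κ) (F : V → V → κ)
    (x y : V) : ℝ := if G.Adj x y ∧ F x y ∉ L x y then 1 else 0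

theorem exists_type {V : Type} [Fintype V] [DecidableEq V] [Nonempty V] (G : SimpleGraph V)
    {r : ℕ} [NeZero r] {F : V → V → Fin r} (hF : F ∈ Col r G) {δ ε : ℝ} (hδ : 0 < δ) (hε : 0 ≤ ε) (J : ℕ)
    (hJ : (r : ℝ) < J * ε ^ 2) :
    ∃ (π : V → Fin (4 ^ J)) (Λ : Fin (4 ^ J) → Fin (4 ^ J) → Finset (Fin r)),
      (∀ x y, Λ (π x) (π y) = Λ (π y) (π x)) ∧
      ∑ a, ∑ b, off G (fun x y => Λ (π x) (π y)) F a b ≤ r * δ * (Fintype.card V : ℝ) ^ 2 ∧
      ∑ y, b4 (fun x y => Λ (π x) (π y)) y ≤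
        (r : ℝ) ^ 5 * (6 * ε / δ ^ 6) * (Fintype.card V : ℝ) ^ 4 := by
  classical
  obtain ⟨⟨hs, -⟩, hb⟩ := mem_Col.1 hF
  let f : Fin r → V × V → ℝ := fun c p => if G.Adj p.1 p.2 ∧ F p.1 p.2 = c then 1 else 0
  have f0 : ∀ c p, 0 ≤ f c p := fun c p => by simp only [f]; split_ifs <;> norm_num
  have f1 : ∀ c p, f c p ≤ 1 := fun c p => by simp only [f]; split_ifs <;> norm_num
  have fs : ∀ c x y, f c (x, y) = f c (y, x) := fun c x y => by
    simp only [f, G.adj_comm x y, hs x y]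
  obtain ⟨π, hπ⟩ := weak_reg f f0 f1 hε J hJ
  let g : Fin r → V → V → ℝ := fun c x y => av (pr π) (f c) (x, y)
  have gs : ∀ c x y, g c x y = g c y x := fun c x y => av_swap π (f c) (fs c) x y
  let Λ : Fin (4 ^ J) → Fin (4 ^ J) → Finset (Fin r) := fun i j =>
    univ.filter fun c => ∃ x y, π x = i ∧ π y = j ∧ δ ≤ g c x y
  have hΛ : ∀ c x y, c ∈ Λ (π x) (π y) ↔ δ ≤ g c x y := by
    intro c x y
    simp only [Λ, mem_filter, mem_univ, true_and]
    constructor
    · rintro ⟨a, b, h1, h2, h3⟩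
      have : g c a b = g c x y := av_meas _ _ (by simp [pr, h1, h2])
      rwa [← this]
    · intro h
      exact ⟨x, y, rfl, rfl, h⟩
  refine ⟨π, Λ, fun x y => ?_, ?_, ?_⟩
  · ext c
    rw [hΛ, hΛ, gs]
  · have e1 : ∀ p : V × V, off G (fun x y => Λ (π x) (π y)) F p.1 p.2 =
        ∑ c, f c p * if g c p.1 p.2 < δ then 1 else 0 := by
      intro p
      rw [sum_eq_single (F p.1 p.2)]
      · simp only [off, hΛ, f, and_true, not_le]
        by_cases c1 : G.Adj p.1 p.2 <;> simp [c1]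
      · intro c _ hc
        simp [f, hc.symm]
      · simp
    rw [← Fintype.sum_prod_type']
    simp only [e1]
    rw [sum_comm]
    have e2 : ∀ c, ∑ p : V × V, f c p * (if g c p.1 p.2 < δ then 1 else 0) ≤
        δ * (Fintype.card V : ℝ) ^ 2 := by
      intro c
      rw [← av_dot (pr π) (f c)]
      · have := sum_le_card_nsmul univ (fun p : V × V => av (pr π) (f c) p *
          (if g c p.1 p.2 < δ then 1 else 0)) δ (fun p _ => by
            split_ifs with h
            · rw [mul_one]; exact h.le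
            · rw [mul_zero]; exact hδ.le)
        rw [card_univ, Fintype.card_prod, nsmul_eq_mul] at this
        push_cast at this
        linarith
      · intro p q hpq
        have : g c p.1 p.2 = g c q.1 q.2 := av_meas _ _ hpq
        rw [this]
    have := sum_le_card_nsmul univ _ _ fun c _ => e2 c
    rw [card_univ, Fintype.card_fin, nsmul_eq_mul] at this
    push_cast at this
    linarith
  · have g0 : ∀ c x y, 0 ≤ g c x y := fun c x y => av_nonneg _ (f0 c) _
    have hcut : ∀ c, CutLe (fun x y => g c x y - f c (x, y)) (ε * (Fintype.card V : ℝ) ^ 2) :=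
      fun c => cutLe_of_rect _ _ (hπ c)
    let P : (Fin 5 → Fin r) → (Fin 4 → V) → ℝ := fun c y =>
      g (c 0) (y 0) (y 1) * g (c 0) (y 2) (y 3) * g (c 1) (y 0) (y 2) * g (c 2) (y 0) (y 3) *
        g (c 3) (y 1) (y 2) * g (c 4) (y 1) (y 3)
    have P0 : ∀ c y, 0 ≤ P c y := fun c y => by
      simp only [P]
      exact mul_nonneg (mul_nonneg (mul_nonneg (mul_nonneg (mul_nonneg (g0 _ _ _) (g0 _ _ _))
        (g0 _ _ _)) (g0 _ _ _)) (g0 _ _ _)) (g0 _ _ _)
    let X := (univ : Finset (Fin 5 → Fin r)).filter fun c => D5 (c 0) (c 1) (c 2) (c 3) (c 4)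
    have e1 : ∀ y, δ ^ 6 * b4 (fun x y => Λ (π x) (π y)) y ≤ ∑ c ∈ X, P c y := by
      intro y
      unfold b4
      split_ifs with h
      · obtain ⟨c, a, b, d, e, h1, h2, h3, h4, h5, h6, h7⟩ := h
        rw [hΛ] at h1 h2 h3 h4 h5 h6
        refine le_trans ?_ (single_le_sum (f := fun c => P c y) (fun c _ => P0 c y)
          (a := ![c, a, b, d, e]) (mem_filter.2 ⟨mem_univ _, h7⟩))
        show δ ^ 6 * 1 ≤ g c (y 0) (y 1) * g c (y 2) (y 3) * g a (y 0) (y 2) * g b (y 0) (y 3) *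
          g d (y 1) (y 2) * g e (y 1) (y 3)
        calc δ ^ 6 * 1 = δ * δ * δ * δ * δ * δ := by ring
          _ ≤ _ := by
            have p1 := hδ.trans_le h1
            have p2 := hδ.trans_le h2
            have p3 := hδ.trans_le h3
            have p4 := hδ.trans_le h4
            have p5 := hδ.trans_le h5
            have p6 := hδ.trans_le h6
            gcongr
      · rw [mul_zero]
        exact sum_nonneg fun c _ => P0 c y
    have e2 : ∀ c ∈ X, ∑ y, P c y ≤ 6 * ε * (Fintype.card V : ℝ) ^ 4 := by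
      intro c hc
      have h1 := T6_count (f := fun c x y => f c (x, y)) (g := g) hcut
        (fun c x y => ⟨f0 _ _, f1 _ _⟩) (fun c x y => ⟨g0 _ _ _, av_le_one _ (f1 c) _⟩) fs gs
        (c 0) (c 0) (c 1) (c 2) (c 3) (c 4)
      have h2 : T6 (fun x y => f (c 0) (x, y)) (fun x y => f (c 0) (x, y))
          (fun x y => f (c 1) (x, y)) (fun x y => f (c 2) (x, y)) (fun x y => f (c 3) (x, y))
          (fun x y => f (c 4) (x, y)) = 0 := by
        refine sum_eq_zero fun q _ => ?_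
        by_contra hne
        simp only [mul_eq_zero, not_or, f, ite_eq_right_iff, one_ne_zero, imp_false, not_not] at hne
        obtain ⟨⟨⟨⟨⟨k1, k2⟩, k3⟩, k4⟩, k5⟩, k6⟩ := hne
        refine hb ⟨_, _, _, _, ⟨k1.1, k2.1, k3.1, k4.1, k5.1, k6.1⟩, k1.2.trans k2.2.symm, ?_⟩
        rw [k1.2, k3.2, k4.2, k5.2, k6.2]
        exact (mem_filter.1 hc).2
      have h3 : ∑ y, P c y = T6 (g (c 0)) (g (c 0)) (g (c 1)) (g (c 2)) (g (c 3)) (g (c 4)) :=
        T6_eq _ _ _ _ _ _
      rw [h3]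
      rw [h2] at h1
      linarith
    have e3 := sum_le_sum fun y (_ : y ∈ univ) => e1 y
    rw [← mul_sum, sum_comm] at e3
    have e4 := sum_le_card_nsmul X _ _ e2
    have e5 : (X.card : ℝ) ≤ (r : ℝ) ^ 5 := by
      have := card_le_univ X
      simp only [Fintype.card_pi, Fintype.card_fin, prod_const, card_univ] at this
      exact_mod_cast this
    rw [nsmul_eq_mul] at e4
    have e6 := mul_le_mul_of_nonneg_right e5
      (show 0 ≤ 6 * ε * (Fintype.card V : ℝ) ^ 4 by positivity)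
    apply le_of_mul_le_mul_left _ (pow_pos hδ 6)
    refine (e3.trans (e4.trans e6)).trans (le_of_eq ?_)
    field_simp

theorem type_count {n : ℕ} (G : SimpleGraph (Fin n)) (L : Fin n → Fin n → Finset (Fin 393217))
    (hL : ∀ x y, L x y = L y x) {η B W : ℝ} (hη : 0 < η) (A : Finset (Fin n → Fin n → Fin 393217))
    (hA : A ⊆ All 393217 G) (hoff : ∀ F ∈ A, ∑ a, ∑ b, off G L F a b ≤ B)
    (hW : ∑ a, ∑ b, ww G L a b ≤ W) :
    (A.card : ℝ) ≤ Real.exp ((W + η * (n : ℝ) ^ 2 + B * |Real.log (η / 393217)|) / 2) := by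
  classical
  have hl : 0 < η / 393217 := by positivity
  let wt : Fin n × Fin n → Fin 393217 → ℝ := fun p c => if c ∈ L p.1 p.2 then 1 else η / 393217
  have w0 : ∀ p c, 0 < wt p c := fun p c => by simp only [wt]; split_ifs <;> positivity
  have h1 := count_upper G A hA wt fun p c => (w0 p c).le
  have h2 : ∀ F ∈ A, Real.exp (-(B * |Real.log (η / 393217)|) / 2) ≤
      ∏ p ∈ Dg G, wt p (F p.1 p.2) := by
    intro F hF
    have hs := (mem_All.1 (hA hF)).1
    rw [← Real.exp_log (prod_pos fun p _ => w0 p (F p.1 p.2)), Real.exp_le_exp,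
      Real.log_prod fun p _ => (w0 p _).ne']
    have e1 := sum_Dg G (fun x y => Real.log (wt (x, y) (F x y))) (fun x y => by
      simp only [wt, hL x y, hs x y])
    have e2 : ∀ x y, -(off G L F x y * |Real.log (η / 393217)|) ≤
        if G.Adj x y then Real.log (wt (x, y) (F x y)) else 0 := by
      intro x y
      simp only [off, wt]
      by_cases c1 : G.Adj x y <;> by_cases c2 : F x y ∈ L x y <;> simp [c1, c2, neg_abs_le]
    have e3 := sum_le_sum fun x (_ : x ∈ univ) => sum_le_sum fun y (_ : y ∈ univ) => e2 x y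
    simp only [sum_neg_distrib, ← sum_mul] at e3
    have e4 := mul_le_mul_of_nonneg_right (hoff F hF) (abs_nonneg (Real.log (η / 393217)))
    linarith
  have h3 := card_nsmul_le_sum A _ _ h2
  have h4 : ∏ p ∈ Dg G, ∑ c, wt p c ≤ Real.exp ((W + η * (n : ℝ) ^ 2) / 2) := by
    have e1 : ∀ p ∈ Dg G, ∑ c, wt p c ≤ Real.exp (Real.log (L p.1 p.2).card + η) := by
      intro p _
      have e2 : ∑ c, wt p c ≤ ∑ c, ((if c ∈ L p.1 p.2 then (1 : ℝ) else 0) + η / 393217) :=
        sum_le_sum fun c _ => by simp only [wt]; split_ifs <;> linarith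
      rw [sum_add_distrib, sum_boole, sum_const, card_univ, Fintype.card_fin, nsmul_eq_mul,
        filter_univ_mem] at e2
      have e3 : ((393217 : ℕ) : ℝ) * (η / 393217) = η := by push_cast; ring
      rw [e3] at e2
      refine e2.trans ?_
      have e4 := Real.add_one_le_exp η
      rcases Nat.eq_zero_or_pos (L p.1 p.2).card with h | h
      · rw [h]
        simp only [Nat.cast_zero, Real.log_zero, zero_add]
        linarith
      · have h' : (1 : ℝ) ≤ (L p.1 p.2).card := by exact_mod_cast h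
        rw [Real.exp_add, Real.exp_log (by linarith)]
        nlinarith
    refine (prod_le_prod (fun p _ => sum_nonneg fun c _ => (w0 p c).le) e1).trans ?_
    rw [← Real.exp_sum, Real.exp_le_exp]
    have e5 := sum_Dg G (fun x y => Real.log (L x y).card + η) (fun x y => by rw [hL x y])
    have e6 : ∀ x y, (if G.Adj x y then Real.log (L x y).card + η else 0) ≤ ww G L x y + η := by
      intro x y
      unfold ww
      split_ifs <;> linarith
    have e7 := sum_le_sum fun x (_ : x ∈ univ) => sum_le_sum fun y (_ : y ∈ univ) => e6 x y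
    simp only [sum_add_distrib, sum_const, card_univ, Fintype.card_fin, nsmul_eq_mul] at e7
    nlinarith
  rw [nsmul_eq_mul] at h3
  have h5 := h3.trans (h1.trans h4)
  rw [← le_div_iff₀ (Real.exp_pos _), ← Real.exp_sub] at h5
  refine h5.trans (le_of_eq ?_)
  congr 1
  ring

theorem upper {η : ℝ} (hη : 0 < η) : ∃ n₀ : ℕ, ∀ n, n₀ ≤ n →
    ∀ G : SimpleGraph (Fin n), G.IsCompleteMultipartite → Equitable G →
      ((Col 393217 G).card : ℝ) ≤ Real.exp ((V0 + 5 * η) * (n : ℝ) ^ 2 / 2) := by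
  classical
  obtain ⟨γ, hγ, n₁, hg⟩ := glob hη
  obtain ⟨δ, hδ, hδ1, hδ2⟩ : ∃ δ : ℝ, 0 < δ ∧ 393217 * δ ≤ γ ∧
      393217 * δ * |Real.log (η / 393217)| ≤ η := by
    refine ⟨min (γ / 393217) (η / (393217 * (|Real.log (η / 393217)| + 1))), by positivity, ?_, ?_⟩
    · have := min_le_left (γ / 393217) (η / (393217 * (|Real.log (η / 393217)| + 1)))
      linarith
    · have h1 := min_le_right (γ / 393217) (η / (393217 * (|Real.log (η / 393217)| + 1)))
      have h2 : 0 < min (γ / 393217) (η / (393217 * (|Real.log (η / 393217)| + 1))) := by positivity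
      rw [le_div_iff₀ (by positivity)] at h1
      nlinarith
  obtain ⟨ε, hε, hε1⟩ : ∃ ε : ℝ, 0 < ε ∧ 393217 ^ 5 * (6 * ε / δ ^ 6) ≤ γ :=
    ⟨γ * δ ^ 6 / (6 * 393217 ^ 5), by positivity, le_of_eq (by field_simp)⟩
  obtain ⟨J, hJ⟩ := exists_nat_gt (((393217 : ℕ) : ℝ) / ε ^ 2)
  rw [div_lt_iff₀ (by positivity)] at hJ
  obtain ⟨C, hC⟩ : ∃ C : ℕ, C = Fintype.card (Fin (4 ^ J) → Fin (4 ^ J) → Finset (Fin 393217)) :=
    ⟨_, rfl⟩
  obtain ⟨n₂, hn₂⟩ := exists_nat_ge ((((4 ^ J : ℕ) : ℝ) + C) / η + 1)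
  refine ⟨max n₁ n₂, fun n hn G h1 h2 => ?_⟩
  have hn' : (((4 ^ J : ℕ) : ℝ) + C) / η + 1 ≤ n :=
    hn₂.trans (by exact_mod_cast (le_max_right _ _).trans hn)
  have hp : 0 ≤ (((4 ^ J : ℕ) : ℝ) + C) / η := by positivity
  have hn0 : (1 : ℝ) ≤ n := by linarith
  haveI : Nonempty (Fin n) := ⟨⟨0, by exact_mod_cast hn0⟩⟩
  let T := (Fin n → Fin (4 ^ J)) × (Fin (4 ^ J) → Fin (4 ^ J) → Finset (Fin 393217))
  let LL : T → Fin n → Fin n → Finset (Fin 393217) := fun τ x y => τ.2 (τ.1 x) (τ.1 y)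
  let A : T → Finset (Fin n → Fin n → Fin 393217) := fun τ => (Col 393217 G).filter fun F =>
    (∀ x y, LL τ x y = LL τ y x) ∧ ∑ a, ∑ b, off G (LL τ) F a b ≤ 393217 * δ * (n : ℝ) ^ 2 ∧
      ∑ y, b4 (LL τ) y ≤ γ * (n : ℝ) ^ 4
  have c1 : Col 393217 G ⊆ univ.biUnion A := by
    intro F hF
    obtain ⟨π, Λ, k1, k2, k3⟩ := exists_type G hF hδ hε.le J hJ
    rw [Fintype.card_fin, Nat.cast_ofNat] at k2 k3
    exact mem_biUnion.2 ⟨(π, Λ), mem_univ _, mem_filter.2 ⟨hF, k1, k2,
      k3.trans (mul_le_mul_of_nonneg_right hε1 (by positivity))⟩⟩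
  have c2 : ∀ τ, ((A τ).card : ℝ) ≤ Real.exp ((V0 + 3 * η) * (n : ℝ) ^ 2 / 2) := by
    intro τ
    rcases (A τ).eq_empty_or_nonempty with h | ⟨F, hF⟩
    · rw [h]
      simpa using (Real.exp_pos _).le
    · obtain ⟨-, k1, k2, k3⟩ := mem_filter.1 hF
      have k4 : ∑ a, ∑ b, e2 G (LL τ) a b ≤ γ * (n : ℝ) ^ 2 := by
        refine le_trans (sum_le_sum fun a _ => sum_le_sum fun b _ => ?_)
          (k2.trans (mul_le_mul_of_nonneg_right hδ1 (by positivity)))
        unfold e2 off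
        by_cases c1 : G.Adj a b <;> by_cases c2 : LL τ a b = ∅ <;> simp [c1, c2]
        split_ifs <;> norm_num
      refine (type_count G (LL τ) k1 hη (A τ)
        ((filter_subset _ _).trans (filter_subset _ _)) (fun F hF => (mem_filter.1 hF).2.2.1)
        (hg n ((le_max_left _ _).trans hn) G h1 h2 (LL τ) k1 k4 k3)).trans ?_
      rw [Real.exp_le_exp]
      nlinarith [mul_le_mul_of_nonneg_right hδ2 (show (0 : ℝ) ≤ (n : ℝ) ^ 2 by positivity)]
  have c3 : ((Col 393217 G).card : ℝ) ≤ ∑ τ, ((A τ).card : ℝ) := by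
    exact_mod_cast (card_le_card c1).trans card_biUnion_le
  have c4 := sum_le_card_nsmul univ _ _ fun τ _ => c2 τ
  have c5 : ((univ : Finset T).card : ℝ) ≤ Real.exp (η * (n : ℝ) ^ 2) := by
    rw [card_univ, Fintype.card_prod, ← hC, Fintype.card_pi]
    simp only [Fintype.card_fin, prod_const, card_univ]
    rw [Nat.cast_mul, Nat.cast_pow]
    have hK : (0 : ℝ) ≤ ((4 ^ J : ℕ) : ℝ) := Nat.cast_nonneg _
    generalize ((4 ^ J : ℕ) : ℝ) = K at *
    have hC0 : (0 : ℝ) ≤ C := Nat.cast_nonneg _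
    have b1 : K ^ n ≤ Real.exp K ^ n :=
      pow_le_pow_left₀ hK (by linarith [Real.add_one_le_exp K]) n
    have b2 : (C : ℝ) ≤ Real.exp C := by linarith [Real.add_one_le_exp (C : ℝ)]
    refine (mul_le_mul b1 b2 hC0 (by positivity)).trans ?_
    rw [← Real.exp_nat_mul, ← Real.exp_add, Real.exp_le_exp]
    have b3 : (K + C) / η ≤ n := by linarith
    rw [div_le_iff₀ hη] at b3
    nlinarith [mul_le_mul_of_nonneg_left b3 (show (0 : ℝ) ≤ n by linarith),
      mul_le_mul_of_nonneg_left hn0 hC0]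
  rw [nsmul_eq_mul] at c4
  refine (c3.trans c4).trans ((mul_le_mul_of_nonneg_right c5 (Real.exp_pos _).le).trans ?_)
  rw [← Real.exp_add]
  exact le_of_eq (by congr 1; ring)

end Pool.Agent.H830Z.ER
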